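import Pool.Agent.Lib.MP_fbd18f_co.L4.Grd

/-! ROW fbd4-Aln: the recursion over the 2-adic valuation. -/

set_option autoImplicit false

namespace Pool.Agent.FBD4

/-- acceptable cells at stage `x`: subdivided by the walls of the time `x + 3 * 2 ^ v₂ x` -/
def Rch (m : ℕ) (F : ℕ → Set ℕ) (x a b : ℕ) : Prop :=
  x + 3 * 2 ^ (padicValNat 2 x) < 2 ^ m → ∃ z ∈ F (x + 3 * 2 ^ (padicValNat 2 x)), a < z ∧ z < b

/-- the properties of the walls chosen at stage `x` -/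
structure Stage (m : ℕ) (C F : ℕ → Set ℕ) (x : ℕ) : Prop where
  lo : F (x - 2 ^ (padicValNat 2 x)) ⊆ F x
  up : x + 2 ^ (padicValNat 2 x) < 2 ^ m → F x ⊆ F (x + 2 ^ (padicValNat 2 x))
  sub : F x ⊆ C x
  base : C 0 ⊆ F x
  rich : ∀ a b, Gap (F x) a b → ¬ Gap (F (x - 2 ^ (padicValNat 2 x))) a b → Rch m F x a b
  ref : ∀ p ∈ C x, (x + 2 ^ (padicValNat 2 x) < 2 ^ m → p ∈ F (x + 2 ^ (padicValNat 2 x))) → p ∉ F x →
    ∃ l ∈ F x, (l ∈ F (x - 2 ^ (padicValNat 2 x)) ∨ tm C l ≤ tm C p) ∧ l ≠ p ∧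
      ¬ Rch m F x (min l p) (max l p)

theorem Aln_val {k y : ℕ} (hy : 2 ^ k ∣ y) (hn : ¬ 2 ^ (k + 1) ∣ y) : padicValNat 2 y = k := by
  have h0 : y ≠ 0 := by
    rintro rfl
    exact hn (dvd_zero _)
  rw [padicValNat_dvd_iff_le h0] at hy hn
  omega

theorem Aln_par {k y : ℕ} (hy : 2 ^ k ∣ y) (h : 2 ^ (k + 1) ∣ y) : ¬ 2 ^ (k + 1) ∣ y + 2 ^ k := by
  intro h2
  have h3 : 2 ^ (k + 1) ∣ 2 ^ k := (Nat.dvd_add_right h).mp h2
  have h4 := Nat.le_of_dvd (by positivity) h3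
  have h5 : 2 ^ k < 2 ^ (k + 1) := Nat.pow_lt_pow_right (by norm_num) (by omega)
  omega

theorem Aln_par2 {k y : ℕ} (hy : 2 ^ k ∣ y) (h : ¬ 2 ^ (k + 1) ∣ y) :
    2 ^ (k + 1) ∣ y + 2 ^ k ∧ 2 ^ (k + 1) ∣ y - 2 ^ k ∧ 2 ^ (k + 1) ∣ y + 3 * 2 ^ k ∧ 2 ^ k ≤ y := by
  obtain ⟨c, rfl⟩ := hy
  have hodd : c % 2 = 1 := by
    by_contra hcon
    apply h
    obtain ⟨d, hd⟩ : 2 ∣ c := Nat.dvd_of_mod_eq_zero (by omega)
    exact ⟨d, by rw [hd, pow_succ]; ring⟩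
  obtain ⟨d, rfl⟩ : ∃ d, c = 2 * d + 1 := ⟨c / 2, by omega⟩
  have e : 2 ^ k * (2 * d + 1) = 2 ^ (k + 1) * d + 2 ^ k := by rw [pow_succ]; ring
  rw [e]
  refine ⟨⟨d + 1, by rw [pow_succ]; ring⟩, ⟨d, by omega⟩, ⟨d + 2, by rw [pow_succ]; ring⟩, by omega⟩

/-- Adjacent multiples of `2 ^ k`. If `v₂ y = k` use `up` at `y`, otherwise (also for `y = 0`) `v₂ (y + 2 ^ k) = k` and `lo` at
`y + 2 ^ k` applies. -/
theorem stage_adj {m : ℕ} {C F : ℕ → Set ℕ} {k : ℕ}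
    (h : ∀ x, 0 < x → x < 2 ^ m → 2 ^ k ∣ x → Stage m C F x) {y : ℕ} (hy : 2 ^ k ∣ y)
    (hy2 : y + 2 ^ k < 2 ^ m) : F y ⊆ F (y + 2 ^ k) := by
  have hpos : 0 < 2 ^ k := by positivity
  by_cases hd : 2 ^ (k + 1) ∣ y
  · have hv : padicValNat 2 (y + 2 ^ k) = k := Aln_val (hy.add (dvd_refl _)) (Aln_par hy hd)
    have h1 := (h (y + 2 ^ k) (by omega) hy2 (hy.add (dvd_refl _))).lo
    rw [hv, Nat.add_sub_cancel] at h1
    exact h1
  · have hv : padicValNat 2 y = k := Aln_val hy hd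
    have hy0 : 0 < y := by
      rcases Nat.eq_zero_or_pos y with h0 | h0
      · rw [h0] at hd
        exact absurd (dvd_zero _) hd
      · exact h0
    have h1 := (h y hy0 (by omega) hy).up
    rw [hv] at h1
    exact h1 hy2

theorem Aln_congr {m : ℕ} {C F F' : ℕ → Set ℕ} {x : ℕ} (h : Stage m C F x) (e0 : F' x = F x)
    (e1 : F' (x - 2 ^ (padicValNat 2 x)) = F (x - 2 ^ (padicValNat 2 x)))
    (e2 : F' (x + 2 ^ (padicValNat 2 x)) = F (x + 2 ^ (padicValNat 2 x)))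
    (e3 : F' (x + 3 * 2 ^ (padicValNat 2 x)) = F (x + 3 * 2 ^ (padicValNat 2 x))) :
    Stage m C F' x := by
  have eR : ∀ a b, Rch m F' x a b ↔ Rch m F x a b := by
    intro a b
    unfold Rch
    rw [e3]
  refine ⟨?_, ?_, ?_, ?_, ?_, ?_⟩
  · rw [e0, e1]; exact h.lo
  · rw [e0, e2]; exact h.up
  · rw [e0]; exact h.sub
  · rw [e0]; exact h.base
  · intro a b
    rw [e0, e1, eR]
    exact h.rich a b
  · intro p hp h1 h2
    rw [e2] at h1
    rw [e0] at h2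
    obtain ⟨l, hl1, hl2, hl3, hl4⟩ := h.ref p hp h1 h2
    refine ⟨l, ?_, ?_, hl3, ?_⟩
    · rw [e0]; exact hl1
    · rw [e1]; exact hl2
    · rw [eR]; exact hl4

/-- STEP from `k + 1` to `k`. -/
theorem stage_step {m M : ℕ} {C : ℕ → Set ℕ} (W : Walls M C) {k : ℕ} (hk : k < m) (F : ℕ → Set ℕ)
    (hF0 : F 0 = C 0) (hF : ∀ x, 0 < x → x < 2 ^ m → 2 ^ (k + 1) ∣ x → Stage m C F x) :
    ∃ F' : ℕ → Set ℕ, F' 0 = C 0 ∧ ∀ x, 0 < x → x < 2 ^ m → 2 ^ k ∣ x → Stage m C F' x := by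
  classical
  have hbase : ∀ y, y < 2 ^ m → 2 ^ (k + 1) ∣ y → C 0 ⊆ F y ∧ F y ⊆ C y := by
    intro y hy hd
    rcases Nat.eq_zero_or_pos y with h | h
    · rw [h, hF0]
      exact ⟨subset_rfl, subset_rfl⟩
    · exact ⟨(hF y h hy hd).base, (hF y h hy hd).sub⟩
  have hS : ∀ x, x < 2 ^ m → 2 ^ k ∣ x → ¬ 2 ^ (k + 1) ∣ x →
      ∃ S : Set ℕ, F (x - 2 ^ k) ⊆ S ∧
        (∀ p ∈ S, p ∈ F (x - 2 ^ k) ∨ (p ∈ C x ∧ (x + 2 ^ k < 2 ^ m → p ∈ F (x + 2 ^ k)))) ∧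
        (∀ a b, Gap S a b → ¬ Gap (F (x - 2 ^ k)) a b → Rch m F x a b) ∧
        (∀ p ∈ C x, (x + 2 ^ k < 2 ^ m → p ∈ F (x + 2 ^ k)) → p ∉ S →
          ∃ l ∈ S, (l ∈ F (x - 2 ^ k) ∨ tm C l ≤ tm C p) ∧ l ≠ p ∧
            ¬ Rch m F x (min l p) (max l p)) := by
    intro x hx hd hn
    obtain ⟨d1, d2, d3, hle⟩ := Aln_par2 hd hn
    have hb := hbase (x - 2 ^ k) (by omega) d2
    have h0 : 0 ∈ F (x - 2 ^ k) := hb.1 W.zero
    have hM : ∀ p, M ≤ p → p ∈ F (x - 2 ^ k) := fun p hp => hb.1 (W.pad p hp)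
    obtain ⟨S, s1, s2, s3, s4⟩ := greedy (F (x - 2 ^ k)) h0 hM
      ((Finset.range M).filter (fun p => p ∈ C x ∧ p ∉ F (x - 2 ^ k) ∧
        (x + 2 ^ k < 2 ^ m → p ∈ F (x + 2 ^ k))))
      (fun p hp => (Finset.mem_filter.mp hp).2.2.1) (tm C) (Rch m F x)
    refine ⟨S, s1, ?_, s3, ?_⟩
    · intro p hp
      rcases s2 p hp with h | h
      · exact Or.inl h
      · have h' := (Finset.mem_filter.mp h).2
        exact Or.inr ⟨h'.1, h'.2.2⟩
    · intro p hp h1 h2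
      have hpS0 : p ∉ F (x - 2 ^ k) := fun h => h2 (s1 h)
      have hpM : p < M := by
        by_contra hcon
        exact hpS0 (hM p (by omega))
      exact s4 p (Finset.mem_filter.mpr ⟨Finset.mem_range.mpr hpM, hp, hpS0, h1⟩) h2
  choose! G hG using hS
  let F' : ℕ → Set ℕ := fun x => if 2 ^ (k + 1) ∣ x then F x else G x
  have eF : ∀ x, 2 ^ (k + 1) ∣ x → F' x = F x := fun x hx => if_pos hx
  have eG : ∀ x, ¬ 2 ^ (k + 1) ∣ x → F' x = G x := fun x hx => if_neg hx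
  refine ⟨F', by rw [eF 0 (dvd_zero _), hF0], ?_⟩
  intro x hx hx2 hd
  by_cases hn : 2 ^ (k + 1) ∣ x
  · have hv : k + 1 ≤ padicValNat 2 x := by
      rw [padicValNat_dvd_iff_le (by omega)] at hn
      exact hn
    have hdv : 2 ^ (k + 1) ∣ 2 ^ padicValNat 2 x := pow_dvd_pow 2 hv
    exact Aln_congr (hF x hx hx2 hn) (eF x hn) (eF _ (Nat.dvd_sub hn hdv)) (eF _ (hn.add hdv))
      (eF _ (hn.add (hdv.mul_left 3)))
  · have hv : padicValNat 2 x = k := Aln_val hd hn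
    obtain ⟨d1, d2, d3, hle⟩ := Aln_par2 hd hn
    obtain ⟨g1, g2, g3, g4⟩ := hG x hx2 hd hn
    have hb := hbase (x - 2 ^ k) (by omega) d2
    have e0 : F' x = G x := eG x hn
    have e1 : F' (x - 2 ^ k) = F (x - 2 ^ k) := eF _ d2
    have e2 : F' (x + 2 ^ k) = F (x + 2 ^ k) := eF _ d1
    have e3 : F' (x + 3 * 2 ^ k) = F (x + 3 * 2 ^ k) := eF _ d3
    have eR : ∀ a b, Rch m F' x a b ↔ Rch m F x a b := by
      intro a b
      unfold Rch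
      rw [hv, e3]
    refine ⟨?_, ?_, ?_, ?_, ?_, ?_⟩
    · rw [hv, e0, e1]; exact g1
    · rw [hv, e0, e2]
      intro hlt p hp
      rcases g2 p hp with h | h
      · have hadj := stage_adj (k := k + 1) hF (y := x - 2 ^ k) d2 (by
          have : 2 ^ (k + 1) = 2 ^ k + 2 ^ k := by rw [pow_succ]; ring
          omega)
        have he : x - 2 ^ k + 2 ^ (k + 1) = x + 2 ^ k := by
          have : 2 ^ (k + 1) = 2 ^ k + 2 ^ k := by rw [pow_succ]; ring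
          omega
        rw [he] at hadj
        exact hadj h
      · exact h.2 hlt
    · rw [e0]
      intro p hp
      rcases g2 p hp with h | h
      · exact W.mono _ _ (Nat.sub_le _ _) (hb.2 h)
      · exact h.1
    · rw [e0]
      exact hb.1.trans g1
    · intro a b
      rw [hv, e0, e1, eR]
      exact g3 a b
    · intro p hp h1 h2
      rw [hv, e2] at h1
      rw [e0] at h2
      obtain ⟨l, hl1, hl2, hl3, hl4⟩ := g4 p hp h1 h2
      refine ⟨l, ?_, ?_, hl3, ?_⟩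
      · rw [e0]; exact hl1
      · rw [hv, e1]; exact hl2
      · rw [eR]; exact hl4

/-- all stages (induction from `k = m`, where there is no `x`, down to `k = 0`) -/
theorem stages {m M : ℕ} {C : ℕ → Set ℕ} (W : Walls M C) :
    ∃ F : ℕ → Set ℕ, F 0 = C 0 ∧ ∀ x, 0 < x → x < 2 ^ m → Stage m C F x := by
  have main : ∀ n, n ≤ m → ∃ F : ℕ → Set ℕ, F 0 = C 0 ∧
      ∀ x, 0 < x → x < 2 ^ m → 2 ^ (m - n) ∣ x → Stage m C F x := by
    intro n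
    induction n with
    | zero =>
      intro _
      refine ⟨C, rfl, fun x hx hx2 hd => ?_⟩
      have := Nat.le_of_dvd hx hd
      rw [Nat.sub_zero] at this
      omega
    | succ n ih =>
      intro hn
      obtain ⟨F, hF0, hF⟩ := ih (by omega)
      have he : m - n = (m - (n + 1)) + 1 := by omega
      rw [he] at hF
      exact stage_step W (by omega) F hF0 hF
  obtain ⟨F, hF0, hF⟩ := main m le_rfl
  refine ⟨F, hF0, fun x hx hx2 => hF x hx hx2 ?_⟩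
  rw [Nat.sub_self, pow_zero]
  exact one_dvd x

end Pool.Agent.FBD4
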