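import Pool.Agent.Lib.MP_fbd18f_co.L4.Defs

/-! Basic facts about gaps, `pv`, `nx`, `tm`, `bth`. -/

set_option autoImplicit false

namespace Pool.Agent.FBD4

theorem pv_spec {S : Set ℕ} (h0 : 0 ∈ S) {x : ℕ} (hx : 1 ≤ x) :
    pv S x ∈ S ∧ pv S x < x ∧ ∀ z ∈ S, z < x → z ≤ pv S x := by
  have hne : ({p | p ∈ S ∧ p < x} : Set ℕ).Nonempty := ⟨0, h0, hx⟩
  have hbd : BddAbove {p | p ∈ S ∧ p < x} := ⟨x, fun p hp => hp.2.le⟩
  have h1 := Nat.sSup_mem hne hbd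
  exact ⟨h1.1, h1.2, fun z hz hzx => le_csSup hbd ⟨hz, hzx⟩⟩

theorem nx_spec {S : Set ℕ} {M : ℕ} (hM : ∀ x, M ≤ x → x ∈ S) (x : ℕ) :
    nx S x ∈ S ∧ x < nx S x ∧ ∀ z ∈ S, x < z → nx S x ≤ z := by
  have hne : ({p | p ∈ S ∧ x < p} : Set ℕ).Nonempty :=
    ⟨max M x + 1, hM _ (by omega), show x < max M x + 1 by omega⟩
  have h1 := Nat.sInf_mem hne
  exact ⟨h1.1, h1.2, fun z hz hzx => Nat.sInf_le ⟨hz, hzx⟩⟩

theorem nx_of_gap {S : Set ℕ} {a b : ℕ} (h : Gap S a b) : nx S a = b := by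
  obtain ⟨ha, hb, hab, hno⟩ := h
  have hne : ({p | p ∈ S ∧ a < p} : Set ℕ).Nonempty := ⟨b, hb, hab⟩
  have h1 := Nat.sInf_mem hne
  have h2 : sInf {p | p ∈ S ∧ a < p} ≤ b := Nat.sInf_le ⟨hb, hab⟩
  rcases Nat.lt_or_ge (sInf {p | p ∈ S ∧ a < p}) b with h3 | h3
  · exact absurd ⟨h1.2, h3⟩ (hno _ h1.1)
  · exact le_antisymm h2 h3

theorem pv_of_gap {S : Set ℕ} {a b x : ℕ} (h : Gap S a b) (h1 : a < x) (h2 : x ≤ b) :
    pv S x = a := by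
  obtain ⟨ha, hb, hab, hno⟩ := h
  have hne : ({p | p ∈ S ∧ p < x} : Set ℕ).Nonempty := ⟨a, ha, h1⟩
  have hbd : BddAbove {p | p ∈ S ∧ p < x} := ⟨x, fun p hp => hp.2.le⟩
  have h3 := Nat.sSup_mem hne hbd
  have h4 : a ≤ sSup {p | p ∈ S ∧ p < x} := le_csSup hbd ⟨ha, h1⟩
  have h5 : sSup {p | p ∈ S ∧ p < x} < x := h3.2
  rcases Nat.lt_or_ge a (sSup {p | p ∈ S ∧ p < x}) with h6 | h6
  · exact absurd ⟨h6, lt_of_lt_of_le h5 h2⟩ (hno _ h3.1)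
  · exact le_antisymm h6 h4

theorem gap_pv {S : Set ℕ} {M : ℕ} (h0 : 0 ∈ S) (hM : ∀ x, M ≤ x → x ∈ S) {x : ℕ} (hx : 1 ≤ x) :
    Gap S (pv S x) (nx S (pv S x)) ∧ pv S x < x ∧ x ≤ nx S (pv S x) := by
  obtain ⟨h1, h2, h3⟩ := pv_spec h0 hx
  obtain ⟨g1, g2, g3⟩ := nx_spec hM (pv S x)
  refine ⟨⟨h1, g1, g2, fun z hz hzz => ?_⟩, h2, ?_⟩
  · have := g3 z hz hzz.1
    omega
  · by_contra hcon
    have := h3 _ g1 (by omega)
    omega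

/-- two gaps of the same set with ordered left ends are disjoint -/
theorem gap_le {S : Set ℕ} {a b c d : ℕ} (h : Gap S a b) (h' : Gap S c d) (hac : a < c) : b ≤ c := by
  by_contra hcon
  exact h.2.2.2 c h'.1 ⟨hac, by omega⟩

theorem gap_eq {S : Set ℕ} {a b b' : ℕ} (h : Gap S a b) (h' : Gap S a b') : b = b' := by
  rw [← nx_of_gap h, nx_of_gap h']

variable {M : ℕ} {D : ℕ → Set ℕ}

theorem Walls.zero' (W : Walls M D) (i : ℕ) : 0 ∈ D i := W.mono 0 i (Nat.zero_le _) W.zero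

theorem Walls.pad' (W : Walls M D) (i : ℕ) : ∀ x, M ≤ x → x ∈ D i :=
  fun x hx => W.mono 0 i (Nat.zero_le _) (W.pad x hx)

theorem Walls.mem_tm (W : Walls M D) {i p : ℕ} (h : p ∈ D i) : p ∈ D (tm D p) ∧ tm D p ≤ i :=
  ⟨Nat.sInf_mem (s := {i | p ∈ D i}) ⟨i, h⟩, Nat.sInf_le h⟩

theorem Walls.mem_iff (W : Walls M D) {i p : ℕ} (h : p ∈ D i) (j : ℕ) : p ∈ D j ↔ tm D p ≤ j :=
  ⟨fun hj => (W.mem_tm hj).2, fun hj => W.mono _ _ hj (W.mem_tm h).1⟩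

/-- the cell containing a point -/
theorem Walls.gap_at (W : Walls M D) (i : ℕ) {x : ℕ} (hx : 1 ≤ x) :
    Gap (D i) (pv (D i) x) (nx (D i) (pv (D i) x)) ∧ pv (D i) x < x ∧ x ≤ nx (D i) (pv (D i) x) :=
  gap_pv (W.zero' i) (W.pad' i) hx

theorem Walls.bth_le (W : Walls M D) {j a b : ℕ} (h : Gap (D j) a b) : bth D a b ≤ j :=
  max_le (W.mem_tm h.1).2 (W.mem_tm h.2.1).2

theorem Walls.gap_of_bth (W : Walls M D) {i j a b : ℕ} (h : Gap (D j) a b) (h1 : bth D a b ≤ i)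
    (h2 : i ≤ j) : Gap (D i) a b := by
  refine ⟨(W.mem_iff h.1 i).mpr (le_trans (le_max_left _ _) h1),
    (W.mem_iff h.2.1 i).mpr (le_trans (le_max_right _ _) h1), h.2.2.1, fun z hz => ?_⟩
  exact h.2.2.2 z (W.mono i j h2 hz)

/-- a cell of `D (j + 1)` is contained in a cell of `D j` -/
theorem Walls.exists_parent (W : Walls M D) {j a b : ℕ} (h : Gap (D (j + 1)) a b) :
    ∃ A B, Gap (D j) A B ∧ A ≤ a ∧ b ≤ B := by
  obtain ⟨h1, h2, h3⟩ := W.gap_at j (x := a + 1) (by omega)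
  refine ⟨_, _, h1, by omega, ?_⟩
  by_contra hcon
  exact h.2.2.2 _ (W.mono j (j + 1) (by omega) h1.2.1) ⟨by omega, by omega⟩

end Pool.Agent.FBD4
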