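import Pool.Agent.Lib.MP_fbd18f_co.L4.Bas
import Pool.Agent.Lib.MP_fbd18f_co.ARITH

/-! Birth codes and symbols. -/

set_option autoImplicit false

namespace Pool.Agent.FBD4

theorem bi_inj {a a' t : ℕ} (h : a ≤ t) (h' : a' ≤ t) (e : bi a t = bi a' t) : a = a' := by
  unfold bi at e
  by_cases ha : a = 0
  · by_cases ha' : a' = 0
    · rw [ha, ha']
    · rw [if_pos ha, if_neg ha'] at e
      have := congrArg Prod.fst e
      simp at this
  · by_cases ha' : a' = 0
    · rw [if_neg ha, if_pos ha'] at e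
      have := congrArg Prod.fst e
      simp at this
    · rw [if_neg ha, if_neg ha'] at e
      have e1 := congrArg Prod.fst e
      have e2 := congrArg Prod.snd e
      simp only [Nat.add_right_cancel_iff] at e1
      simp only at e2
      rw [e1] at e2
      have d1 : 2 ^ padicValNat 2 a' ∣ a := by rw [← e1]; exact pow_padicValNat_dvd
      have d2 : 2 ^ padicValNat 2 a' ∣ a' := pow_padicValNat_dvd
      set P := 2 ^ padicValNat 2 a' with hP
      have hPpos : 0 < P := by positivity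
      obtain ⟨c, rfl⟩ := d1
      obtain ⟨c', hc'⟩ := d2
      rw [hc'] at e2 h' ⊢
      have f1 : (t - P * c) / P = t / P - c := Nat.sub_mul_div t P c
      have f2 : (t - P * c') / P = t / P - c' := Nat.sub_mul_div t P c'
      rw [f1, f2] at e2
      have g1 : c ≤ t / P := (Nat.le_div_iff_mul_le hPpos).mpr (by rw [mul_comm]; exact h)
      have g2 : c' ≤ t / P := (Nat.le_div_iff_mul_le hPpos).mpr (by rw [mul_comm]; exact h')
      have : c = c' := by omega
      rw [this]

theorem sz_lt (n : ℕ) : sz n < 128 := by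
  unfold sz
  have h1 : (n + 1) % 16 < 16 := Nat.mod_lt _ (by norm_num)
  have h2 : ((n + 1) / 2 ^ (padicValNat 2 (n + 1))) % 8 < 8 := Nat.mod_lt _ (by norm_num)
  omega

theorem sz_mod {n n' : ℕ} (h : sz n = sz n') : n % 16 = n' % 16 := by
  unfold sz at h
  have h1 : (n + 1) % 16 < 16 := Nat.mod_lt _ (by norm_num)
  have h2 : (n' + 1) % 16 < 16 := Nat.mod_lt _ (by norm_num)
  omega

theorem sz_odd {n n' : ℕ} (h : sz n = sz n') :
    ((n + 1) / 2 ^ (padicValNat 2 (n + 1))) % 8 =
      ((n' + 1) / 2 ^ (padicValNat 2 (n' + 1))) % 8 := by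
  unfold sz at h
  have h1 : (n + 1) % 16 < 16 := Nat.mod_lt _ (by norm_num)
  have h2 : (n' + 1) % 16 < 16 := Nat.mod_lt _ (by norm_num)
  omega

theorem sz_far (a D : ℕ) (hD : 0 < D) (h8 : 8 ∣ D) :
    ∃ n, a ≤ n ∧ 2 * (n + 1) ≤ 2 * a + D ∧ sz n ≠ sz (n + D) := by
  obtain ⟨k, o, ho, hDo⟩ := Nat.exists_eq_two_pow_mul_odd (n := D) (by omega)
  have ho1 : o % 2 = 1 := Nat.odd_iff.mp ho
  have hk : 3 ≤ k := by
    by_contra hk
    have h1 : k = 0 ∨ k = 1 ∨ k = 2 := by omega
    rcases h1 with rfl | rfl | rfl <;> omega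
  obtain ⟨c, rfl⟩ : ∃ c, k = c + 2 := ⟨k - 2, by omega⟩
  have hc : 1 ≤ c := by omega
  set P := 2 ^ c with hP
  have hP2 : 2 ≤ P := by
    calc 2 = 2 ^ 1 := by norm_num
      _ ≤ 2 ^ c := Nat.pow_le_pow_right (by norm_num) hc
  have hD' : D = 4 * P * o := by rw [hDo, pow_add, ← hP]; ring
  let q := (a + P) / (2 * P)
  have hq1 : (2 * P) * q ≤ a + P := Nat.mul_div_le _ _
  have hq2 : a + P < (2 * P) * (q + 1) := Nat.lt_mul_div_succ _ (by positivity)
  let u := 2 * q + 1
  have hu : u % 2 = 1 := by simp only [u]; omega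
  have hPu : P * u = 2 * P * q + P := by simp only [u]; ring
  have hexp : 2 * P * (q + 1) = 2 * P * q + 2 * P := by ring
  have hm1 : a + 1 ≤ P * u := by
    rw [hPu]; omega
  have hm2 : P * u ≤ a + 2 * P := by
    rw [hPu]; omega
  have hDge : 4 * P ≤ D := by
    rw [hD']
    exact Nat.le_mul_of_pos_right _ (by omega)
  refine ⟨P * u - 1, by omega, by omega, ?_⟩
  intro hsy
  have h := sz_odd hsy
  have e1 : P * u - 1 + 1 = P * u := by omega
  have e2 : P * u - 1 + D + 1 = P * (u + 4 * o) := by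
    have : P * (u + 4 * o) = P * u + D := by rw [hD']; ring
    omega
  rw [e1, e2, hP, FBD.oddpart_pow_mul c u hu, FBD.oddpart_pow_mul c (u + 4 * o) (by omega)] at h
  omega

end Pool.Agent.FBD4
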