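import Pool.Agent.Lib.MP_fbd18f_co.L4.Bas

/-! Parents, children, labels. -/

set_option autoImplicit false

namespace Pool.Agent.FBD4

variable {M : ℕ} {D : ℕ → Set ℕ}

theorem Walls.parent {j A B a b : ℕ} (hP : Gap (D j) A B)
    (h1 : A ≤ a) (h2 : b ≤ B) (hab : a < b) (hb : bth D a b = j + 1) :
    pL D a b = A ∧ pR D a b = B := by
  have e : bth D a b - 1 = j := by omega
  have hL : pL D a b = A := by
    unfold pL
    rw [e]
    exact pv_of_gap hP (by omega) (by omega)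
  refine ⟨hL, ?_⟩
  unfold pR
  rw [e, hL]
  exact nx_of_gap hP

/-- the first two children of a dying cell -/
theorem Walls.children (W : Walls M D) {j A B : ℕ} (hP : Gap (D j) A B)
    (hn : ¬ Gap (D (j + 1)) A B) :
    ∃ z z', Gap (D (j + 1)) A z ∧ Gap (D (j + 1)) z z' ∧ z < B ∧ z' ≤ B ∧ bth D A z = j + 1 ∧
      bth D z z' = j + 1 ∧ idx D z z' = idx D A z + 1 := by
  have hA : A ∈ D (j + 1) := W.mono _ _ (Nat.le_succ j) hP.1
  have hB : B ∈ D (j + 1) := W.mono _ _ (Nat.le_succ j) hP.2.1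
  have hz0 : ∃ z ∈ D (j + 1), A < z ∧ z < B := by
    by_contra hcon
    apply hn
    refine ⟨hA, hB, hP.2.2.1, fun z hz hzz => hcon ⟨z, hz, hzz⟩⟩
  obtain ⟨z0, hz0, hz1, hz2⟩ := hz0
  obtain ⟨n1, n2, n3⟩ := nx_spec (W.pad' (j + 1)) A
  set z := nx (D (j + 1)) A with hz
  have hzB : z < B := lt_of_le_of_lt (n3 z0 hz0 hz1) hz2
  have hg1 : Gap (D (j + 1)) A z := ⟨hA, n1, n2, fun y hy hyy => by
    have := n3 y hy hyy.1
    omega⟩
  obtain ⟨m1, m2, m3⟩ := nx_spec (W.pad' (j + 1)) z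
  set z' := nx (D (j + 1)) z with hz'
  have hg2 : Gap (D (j + 1)) z z' := ⟨n1, m1, m2, fun y hy hyy => by
    have := m3 y hy hyy.1
    omega⟩
  have hzn : z ∉ D j := fun h => hP.2.2.2 z h ⟨n2, hzB⟩
  have htz : tm D z = j + 1 := by
    have h1 := (W.mem_tm n1).2
    have h2 : ¬ tm D z ≤ j := fun h => hzn ((W.mem_iff n1 j).mpr h)
    omega
  have hb1 : bth D A z = j + 1 := by
    have h1 := (W.mem_tm hA).2
    unfold bth
    omega
  have hb2 : bth D z z' = j + 1 := by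
    have h1 := (W.mem_tm m1).2
    unfold bth
    omega
  refine ⟨z, z', hg1, hg2, hzB, m3 B hB hzB, hb1, hb2, ?_⟩
  unfold idx
  rw [hb1, hb2]
  have hAR : A ∈ Rs D (j + 1) := ⟨hA, by rw [nx_of_gap hg1]; exact hb1⟩
  obtain ⟨k, hk⟩ : ∃ k, z = A + 1 + k := ⟨z - (A + 1), by omega⟩
  classical
  rw [hk, Nat.count_add, Nat.count_succ]
  simp only [if_pos hAR]
  have hc : Nat.count (fun x => A + 1 + x ∈ Rs D (j + 1)) k = 0 := by
    apply Nat.count_of_forall_not
    intro m hm hmem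
    exact hg1.2.2.2 _ hmem.1 ⟨by omega, by omega⟩
  rw [hc]

/-- unfolding the payload when the parent is `[A, B]` -/
theorem Walls.pay_eq (W : Walls M D) {j A B a b : ℕ} (hP : Gap (D j) A B)
    (h1 : A ≤ a) (h2 : b ≤ B) (hab : a < b) (hb : bth D a b = j + 1) :
    pay D a b = if psn D a b = 0 then some (bi (bth D A B) (j + 1), sz (idx D A B), psn D A B)
      else if psn D a b = 1 then pay D A B else none := by
  obtain ⟨e1, e2⟩ := Walls.parent hP h1 h2 hab hb
  rw [pay, e1, e2, hb]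
  have : bth D A B < j + 1 := Nat.lt_succ_of_le (W.bth_le hP)
  rw [dif_pos this]

/-- the first child -/
theorem Walls.lab_first (W : Walls M D) {j A B z : ℕ} (hP : Gap (D j) A B)
    (h : Gap (D (j + 1)) A z) (hb : bth D A z = j + 1) :
    psn D A z = 0 ∧ pay D A z = some (bi (bth D A B) (j + 1), sz (idx D A B), psn D A B) := by
  have hB : B ∈ D (j + 1) := W.mono _ _ (Nat.le_succ j) hP.2.1
  have hzB : z ≤ B := by
    by_contra hcon
    exact h.2.2.2 B hB ⟨hP.2.2.1, by omega⟩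
  obtain ⟨e1, e2⟩ := Walls.parent hP le_rfl hzB h.2.2.1 hb
  have hpos : psn D A z = 0 := by
    unfold psn
    rw [if_pos e1]
  refine ⟨hpos, ?_⟩
  rw [W.pay_eq hP le_rfl hzB h.2.2.1 hb, if_pos hpos]

/-- the second child -/
theorem Walls.lab_second (W : Walls M D) {j A B z z' : ℕ} (hP : Gap (D j) A B)
    (h : Gap (D (j + 1)) A z) (h' : Gap (D (j + 1)) z z') (hz' : z' ≤ B)
    (hb : bth D z z' = j + 1) :
    psn D z z' = 1 ∧ pay D z z' = pay D A B := by
  obtain ⟨e1, e2⟩ := Walls.parent hP h.2.2.1.le hz' h'.2.2.1 hb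
  have hAz := h.2.2.1
  have hpos : psn D z z' = 1 := by
    unfold psn
    rw [if_neg (by rw [e1]; omega), hb, pv_of_gap h hAz le_rfl, e1, if_pos rfl]
  refine ⟨hpos, ?_⟩
  rw [W.pay_eq hP h.2.2.1.le hz' h'.2.2.1 hb, hpos]
  rfl

/-- a cell born at `j + 1` with position `0` is the first child of a dying cell -/
theorem Walls.first_parent (W : Walls M D) {j a b : ℕ} (h : Gap (D (j + 1)) a b)
    (hb : bth D a b = j + 1) (hp : psn D a b = 0) :
    ∃ B, Gap (D j) a B ∧ b < B := by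
  obtain ⟨A, B, hP, h1, h2⟩ := W.exists_parent h
  obtain ⟨e1, e2⟩ := Walls.parent hP h1 h2 h.2.2.1 hb
  have hA : A = a := by
    unfold psn at hp
    by_contra hcon
    rw [if_neg (by rw [e1]; exact hcon)] at hp
    split_ifs at hp
  subst hA
  refine ⟨B, hP, lt_of_le_of_ne h2 ?_⟩
  rintro rfl
  have := W.bth_le hP
  omega

end Pool.Agent.FBD4
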