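import Pool.Agent.Lib.MP_fbd18f_co.L4.Bi
import Pool.Agent.Lib.MP_fbd18f_co.L4.Par

/-! ROW fbd4-Cnt: the number of colours. -/

set_option autoImplicit false

namespace Pool.Agent.FBD4

/-- the number of possible values of `sho` -/
def KK (m : ℕ) : ℕ := 4 * (m + 1) * (128 * 3 * (1 + 4 * (m + 1) * (128 * 3)))

theorem psn_lt (D : ℕ → Set ℕ) (a b : ℕ) : psn D a b < 3 := by
  unfold psn
  split_ifs <;> omega

/-- Bound for birth codes. Let `x = bth D a b > 0`, `v = v₂ x < m` (`2 ^ v ∣ x < 2 ^ m`). If `x + 3 * 2 ^ v < 2 ^ m` then by `Aligned` (the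
gap `[a, b]` is a gap of `D x`, `gap_of_bth`) a wall of `D (x + 3 * 2 ^ v)` lies strictly inside, so `j < x + 3 * 2 ^ v`;
otherwise `j < 2 ^ m ≤ x + 3 * 2 ^ v`. Hence `j + 1 - x ≤ 3 * 2 ^ v`, for `t ≤ j + 1`: `(t - x) / 2 ^ v ≤ 3`. -/
theorem bi_bound {m M : ℕ} {D : ℕ → Set ℕ} (W : Walls M D) (hA : Aligned m D) {j a b t : ℕ}
    (h : Gap (D j) a b) (hj : j < 2 ^ m) (ht : t ≤ j + 1) :
    (bi (bth D a b) t).1 ≤ m ∧ (bi (bth D a b) t).2 ≤ 3 := by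
  have hxj : bth D a b ≤ j := W.bth_le h
  have hgx : Gap (D (bth D a b)) a b := W.gap_of_bth h le_rfl hxj
  obtain ⟨x, hx⟩ : ∃ x, x = bth D a b := ⟨_, rfl⟩
  rw [← hx] at hxj hgx ⊢
  unfold bi
  by_cases h0 : x = 0
  · rw [if_pos h0]
    exact ⟨Nat.zero_le _, Nat.zero_le _⟩
  rw [if_neg h0]
  have hpos : 0 < x := Nat.pos_of_ne_zero h0
  have hdvd : 2 ^ padicValNat 2 x ∣ x := pow_padicValNat_dvd
  have hle : 2 ^ padicValNat 2 x ≤ x := Nat.le_of_dvd hpos hdvd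
  have hv : padicValNat 2 x < m := by
    have h1 : 2 ^ padicValNat 2 x < 2 ^ m := by omega
    exact (Nat.pow_lt_pow_iff_right (by norm_num)).1 h1
  have hPpos : 0 < 2 ^ padicValNat 2 x := by positivity
  have hjlt : j < x + 3 * 2 ^ padicValNat 2 x := by
    by_cases hlt : x + 3 * 2 ^ padicValNat 2 x < 2 ^ m
    · obtain ⟨z, hz, hz1, hz2⟩ := hA x a b hpos (by omega) hgx hx.symm hlt
      by_contra hcon
      exact h.2.2.2 z (W.mono _ _ (by omega) hz) ⟨hz1, hz2⟩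
    · omega
  refine ⟨hv, ?_⟩
  show (t - x) / 2 ^ padicValNat 2 x ≤ 3
  rw [Nat.div_le_iff_le_mul_add_pred hPpos]
  have h2 : t - x ≤ 3 * 2 ^ padicValNat 2 x := by omega
  have h3 : 3 * 2 ^ padicValNat 2 x = 2 ^ padicValNat 2 x * 3 := Nat.mul_comm _ _
  omega

/-- Bound for payloads: strong induction on `bth D a b` (unfold `pay`; if `bth = 0` the condition of the `if` is false; otherwise
`t = bth`, the parent is a gap of `D (t - 1)` by `Walls.exists_parent` and `Walls.parent`, use `Walls.pay_eq`, `bi_bound`, `sz_lt`, `psn_lt`). -/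
theorem pay_bound {m M : ℕ} {D : ℕ → Set ℕ} (W : Walls M D) (hA : Aligned m D) {j a b : ℕ}
    (h : Gap (D j) a b) (hj : j < 2 ^ m) (y : (ℕ × ℕ) × ℕ × ℕ) (hy : pay D a b = some y) :
    y.1.1 ≤ m ∧ y.1.2 ≤ 3 ∧ y.2.1 < 128 ∧ y.2.2 < 3 := by
  induction j generalizing a b with
  | zero =>
    exfalso
    have h0 : bth D a b = 0 := Nat.le_zero.1 (W.bth_le h)
    rw [pay, dif_neg (by rw [h0]; exact Nat.not_lt_zero _)] at hy
    exact absurd hy (by simp)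
  | succ i ih =>
    by_cases hb : bth D a b ≤ i
    · exact ih (W.gap_of_bth h hb (Nat.le_succ i)) (by omega) hy
    · have hb' : bth D a b = i + 1 := by
        have := W.bth_le h
        omega
      obtain ⟨A, B, hP, h1, h2⟩ := W.exists_parent h
      rw [W.pay_eq hP h1 h2 h.2.2.1 hb'] at hy
      split_ifs at hy with c1 c2
      · have hy' := Option.some.inj hy
        subst hy'
        have hbi := bi_bound W hA hP (t := i + 1) (by omega) le_rfl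
        exact ⟨hbi.1, hbi.2, sz_lt _, psn_lt _ _ _⟩
      · exact ih hP (by omega) hy

/-- residue as an element of `Fin` -/
def Cnt_cl (k n : ℕ) : Fin (k + 1) := ⟨n % (k + 1), Nat.mod_lt _ (Nat.succ_pos k)⟩

theorem Cnt_cl_inj {k n n' : ℕ} (h : n ≤ k) (h' : n' ≤ k) (e : Cnt_cl k n = Cnt_cl k n') :
    n = n' := by
  have e1 := congrArg Fin.val e
  simp only [Cnt_cl] at e1
  rwa [Nat.mod_eq_of_lt (by omega), Nat.mod_eq_of_lt (by omega)] at e1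

/-- finite type of the shown values -/
abbrev Cnt_T (m : ℕ) : Type :=
  (Fin (m + 1) × Fin 4) × (Fin 128 × Fin 3 × Option ((Fin (m + 1) × Fin 4) × Fin 128 × Fin 3))

/-- bounded payload entries -/
def Cnt_PB (m : ℕ) (y : (ℕ × ℕ) × ℕ × ℕ) : Prop :=
  y.1.1 ≤ m ∧ y.1.2 ≤ 3 ∧ y.2.1 < 128 ∧ y.2.2 < 3

/-- bounded shown values -/
def Cnt_B (m : ℕ) (x : (ℕ × ℕ) × Lb) : Prop :=
  x.1.1 ≤ m ∧ x.1.2 ≤ 3 ∧ x.2.1 < 128 ∧ x.2.2.1 < 3 ∧ ∀ y, x.2.2.2 = some y → Cnt_PB m y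

/-- encoding of payload entries -/
def Cnt_ep (m : ℕ) (y : (ℕ × ℕ) × ℕ × ℕ) : (Fin (m + 1) × Fin 4) × Fin 128 × Fin 3 :=
  ((Cnt_cl m y.1.1, Cnt_cl 3 y.1.2), Cnt_cl 127 y.2.1, Cnt_cl 2 y.2.2)

/-- encoding of shown values -/
def Cnt_en (m : ℕ) (x : (ℕ × ℕ) × Lb) : Cnt_T m :=
  ((Cnt_cl m x.1.1, Cnt_cl 3 x.1.2), (Cnt_cl 127 x.2.1, Cnt_cl 2 x.2.2.1, x.2.2.2.map (Cnt_ep m)))

theorem Cnt_ep_inj {m : ℕ} {y y' : (ℕ × ℕ) × ℕ × ℕ} (h : Cnt_PB m y) (h' : Cnt_PB m y')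
    (e : Cnt_ep m y = Cnt_ep m y') : y = y' := by
  obtain ⟨⟨a, b⟩, c, d⟩ := y
  obtain ⟨⟨a', b'⟩, c', d'⟩ := y'
  simp only [Cnt_ep, Prod.mk.injEq] at e
  obtain ⟨⟨e1, e2⟩, e3, e4⟩ := e
  obtain ⟨h1, h2, h3, h4⟩ := h
  obtain ⟨h1', h2', h3', h4'⟩ := h'
  simp only at h1 h2 h3 h4 h1' h2' h3' h4'
  rw [Cnt_cl_inj h1 h1' e1, Cnt_cl_inj h2 h2' e2, Cnt_cl_inj (by omega) (by omega) e3,
    Cnt_cl_inj (by omega) (by omega) e4]

theorem Cnt_en_inj {m : ℕ} {x x' : (ℕ × ℕ) × Lb} (h : Cnt_B m x) (h' : Cnt_B m x')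
    (e : Cnt_en m x = Cnt_en m x') : x = x' := by
  obtain ⟨⟨a, b⟩, c, d, p⟩ := x
  obtain ⟨⟨a', b'⟩, c', d', p'⟩ := x'
  simp only [Cnt_en, Prod.mk.injEq] at e
  obtain ⟨⟨e1, e2⟩, e3, e4, e5⟩ := e
  obtain ⟨h1, h2, h3, h4, h5⟩ := h
  obtain ⟨h1', h2', h3', h4', h5'⟩ := h'
  simp only at h1 h2 h3 h4 h5 h1' h2' h3' h4' h5'
  have hp : p = p' := by
    cases p with
    | none =>
      cases p' with
      | none => rfl
      | some y' => simp at e5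
    | some y =>
      cases p' with
      | none => simp at e5
      | some y' =>
        simp only [Option.map_some, Option.some.injEq] at e5
        rw [Cnt_ep_inj (h5 y rfl) (h5' y' rfl) e5]
  rw [Cnt_cl_inj h1 h1' e1, Cnt_cl_inj h2 h2' e2, Cnt_cl_inj (by omega) (by omega) e3,
    Cnt_cl_inj (by omega) (by omega) e4, hp]

theorem Cnt_card (m : ℕ) : Fintype.card (Cnt_T m) = KK m := by
  simp only [Cnt_T, Fintype.card_prod, Fintype.card_fin, Fintype.card_option, KK]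
  ring

theorem Cnt_sho {m M : ℕ} {D : ℕ → Set ℕ} (W : Walls M D) (hA : Aligned m D) {i x : ℕ}
    (hi : i < 2 ^ m) (hx : 1 ≤ x) : Cnt_B m (sho D i x) := by
  obtain ⟨hg, -, -⟩ := W.gap_at i hx
  have hb := bi_bound W hA hg (t := i) hi (Nat.le_succ i)
  exact ⟨hb.1, hb.2, sz_lt _, psn_lt _ _ _, fun y hy => pay_bound W hA hg hi y hy⟩

/-- NUMBER OF COLOURS: the values of `sho` lie in a finite set with `KK m` elements (`bi_bound` with `t = j = lv`, `pay_bound`,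
`sz_lt`, `psn_lt`; `Fin (m + 1) × Fin 4` for the code, `Fin 128 × Fin 3 × Option (...)` for the label), the level has `2 ^ m` values. -/
theorem col_count {m M : ℕ} {D : ℕ → Set ℕ} (W : Walls M D) (hA : Aligned m D) :
    ∃ F : ℕ × ((ℕ × ℕ) × Lb) × ((ℕ × ℕ) × Lb) → Fin (2 ^ m * (KK m * KK m)), ∀ s s',
      Ok M (2 ^ m) D s → Ok M (2 ^ m) D s' → F (col D s) = F (col D s') → col D s = col D s' := by
  classical
  have hcard : Fintype.card (Fin (2 ^ m) × Cnt_T m × Cnt_T m) = 2 ^ m * (KK m * KK m) := by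
    rw [Fintype.card_prod, Fintype.card_prod, Fintype.card_fin, Cnt_card]
  have hpos : 0 < 2 ^ m := by positivity
  let e := Fintype.equivFinOfCardEq hcard
  refine ⟨fun c => e (⟨c.1 % 2 ^ m, Nat.mod_lt _ hpos⟩, Cnt_en m c.2.1, Cnt_en m c.2.2), ?_⟩
  intro s s' hs hs' hF
  have h1 := e.injective hF
  simp only [Prod.mk.injEq] at h1
  obtain ⟨h2, h3, h4⟩ := h1
  have h5 : (col D s).1 = (col D s').1 := by
    have h6 := congrArg Fin.val h2
    simp only at h6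
    have h7 : (col D s).1 < 2 ^ m := hs.hH
    have h8 : (col D s').1 < 2 ^ m := hs'.hH
    rwa [Nat.mod_eq_of_lt h7, Nat.mod_eq_of_lt h8] at h6
  have h6 := Cnt_en_inj (Cnt_sho W hA hs.hH hs.h1) (Cnt_sho W hA hs'.hH hs'.h1) h3
  have h7 := Cnt_en_inj (Cnt_sho W hA hs.hH (Nat.le_add_left 1 s.hi))
    (Cnt_sho W hA hs'.hH (Nat.le_add_left 1 s'.hi)) h4
  exact Prod.ext h5 (Prod.ext h6 h7)

end Pool.Agent.FBD4
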