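import Pool.Agent.Lib.MP_fbd18f_co.L4.Bi

/-! ROW fbd4-Rev: the direct reveal, and minimal crossings. -/

set_option autoImplicit false

namespace Pool.Agent.FBD4

variable {M : ℕ} {D : ℕ → Set ℕ}

/-- DIRECT REVEAL. If `X` touches the cell `[a, b]` of its own level then its colour shows birth and label of this cell: if
`a < X.lo` then `pv (D i) X.lo = a` (`pv_of_gap`), otherwise `X.lo ≤ a ≤ X.hi < b` (`Ok.one`) and `pv (D i) (X.hi + 1) = a`. For `Y` take the
cell at `Y.lo` resp. at `Y.hi + 1` (`Walls.gap_at`); births agree by `bi_inj` and `Walls.bth_le`. -/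
theorem Walls.reveal (W : Walls M D) {H : ℕ} {X Y : St} (hX : Ok M H D X) (hY : Ok M H D Y)
    (hc : col D X = col D Y) {a b : ℕ} (h : Gap (D X.lv) a b) (ht : Tch X a b) :
    ∃ a' b', Gap (D X.lv) a' b' ∧ Tch Y a' b' ∧ bth D a' b' = bth D a b ∧ lab D a' b' = lab D a b := by
  have hlv : X.lv = Y.lv := congrArg Prod.fst hc
  have hcl : sho D X.lv X.lo = sho D Y.lv Y.lo := congrArg (fun z => z.2.1) hc
  have hcr : sho D X.lv (X.hi + 1) = sho D Y.lv (Y.hi + 1) := congrArg (fun z => z.2.2) hc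
  rw [← hlv] at hcl hcr
  have key : ∀ x y : ℕ, 1 ≤ y → pv (D X.lv) x = a → sho D X.lv x = sho D X.lv y →
      Gap (D X.lv) (pv (D X.lv) y) (nx (D X.lv) (pv (D X.lv) y)) ∧
      bth D (pv (D X.lv) y) (nx (D X.lv) (pv (D X.lv) y)) = bth D a b ∧
      lab D (pv (D X.lv) y) (nx (D X.lv) (pv (D X.lv) y)) = lab D a b := by
    intro x y hy hx hs
    obtain ⟨g, _, _⟩ := W.gap_at X.lv hy
    unfold sho at hs
    rw [hx, nx_of_gap h] at hs
    have e1 := congrArg Prod.fst hs
    have e2 := congrArg Prod.snd hs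
    refine ⟨g, ?_, e2.symm⟩
    exact (bi_inj (W.bth_le h) (W.bth_le g) e1).symm
  by_cases hlo : a < X.lo
  · have hp : pv (D X.lv) X.lo = a := pv_of_gap h hlo ht.1
    obtain ⟨g1, g2, g3⟩ := key _ _ hY.h1 hp hcl
    obtain ⟨_, k1, k2⟩ := W.gap_at X.lv hY.h1
    exact ⟨_, _, g1, ⟨k2, by have := hY.hle; omega⟩, g2, g3⟩
  · have hb : X.hi < b := hX.one a h.1 b h.2.1 (by omega) h.2.2.1
    have hp : pv (D X.lv) (X.hi + 1) = a := pv_of_gap h (by have := ht.2; omega) (by omega)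
    have hy1 : 1 ≤ Y.hi + 1 := by omega
    obtain ⟨g1, g2, g3⟩ := key _ _ hy1 hp hcr
    obtain ⟨_, k1, k2⟩ := W.gap_at X.lv hy1
    exact ⟨_, _, g1, ⟨by have := hY.hle; omega, by omega⟩, g2, g3⟩

/-- MINIMAL CROSSING (strong induction on `s' - s`: if some state strictly between does not touch `[a, b]` it is strictly left or
strictly right of it and one of the two parts is a shorter crossing). -/
theorem min_cross (A : ℕ → St) (a b s s' : ℕ) (hs : s < s')
    (hcr : (A s).hi < a ∧ b < (A s').lo ∨ (A s').hi < a ∧ b < (A s).lo) :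
    ∃ r r', s ≤ r ∧ r < r' ∧ r' ≤ s' ∧
      ((A r).hi < a ∧ b < (A r').lo ∨ (A r').hi < a ∧ b < (A r).lo) ∧
      ∀ u, r < u → u < r' → Tch (A u) a b := by
  obtain ⟨n, hn⟩ : ∃ n, s' - s ≤ n := ⟨_, le_rfl⟩
  induction n generalizing s s' with
  | zero => omega
  | succ n ih =>
    by_cases hall : ∀ u, s < u → u < s' → Tch (A u) a b
    · exact ⟨s, s', le_rfl, hs, le_rfl, hcr, hall⟩
    · push Not at hall
      obtain ⟨u, hu1, hu2, hu3⟩ := hall
      have hu4 : (A u).hi < a ∨ b < (A u).lo := by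
        unfold Tch at hu3
        rcases Nat.lt_or_ge b (A u).lo with h | h
        · exact Or.inr h
        · left
          by_contra hcon
          exact hu3 ⟨h, by omega⟩
      have hL : u - s ≤ n := by omega
      have hR : s' - u ≤ n := by omega
      have left : (((A s).hi < a ∧ b < (A u).lo) ∨ ((A u).hi < a ∧ b < (A s).lo)) →
          ∃ r r', s ≤ r ∧ r < r' ∧ r' ≤ s' ∧
          ((A r).hi < a ∧ b < (A r').lo ∨ (A r').hi < a ∧ b < (A r).lo) ∧
          ∀ u, r < u → u < r' → Tch (A u) a b := by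
        intro hh
        obtain ⟨r, r', h1, h2, h3, h4, h5⟩ := ih s u hu1 hh hL
        exact ⟨r, r', h1, h2, le_trans h3 hu2.le, h4, h5⟩
      have right : (((A u).hi < a ∧ b < (A s').lo) ∨ ((A s').hi < a ∧ b < (A u).lo)) →
          ∃ r r', s ≤ r ∧ r < r' ∧ r' ≤ s' ∧
          ((A r).hi < a ∧ b < (A r').lo ∨ (A r').hi < a ∧ b < (A r).lo) ∧
          ∀ u, r < u → u < r' → Tch (A u) a b := by
        intro hh
        obtain ⟨r, r', h1, h2, h3, h4, h5⟩ := ih u s' hu2 hh hR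
        exact ⟨r, r', le_trans hu1.le h1, h2, h3, h4, h5⟩
      rcases hcr with ⟨h1, h2⟩ | ⟨h1, h2⟩ <;> rcases hu4 with h | h
      · exact right (Or.inl ⟨h, h2⟩)
      · exact left (Or.inl ⟨h1, h⟩)
      · exact left (Or.inr ⟨h, h2⟩)
      · exact right (Or.inr ⟨h1, h⟩)

end Pool.Agent.FBD4
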