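import Pool.Agent.Lib.MP_fbd18f_co.L4.Trk
import Pool.Agent.Lib.MP_fbd18f_co.L4.Rev
import Pool.Agent.Lib.MP_fbd18f_co.L4.Par

/-! ROW fbd4-Stp: the tracking claim. -/

set_option autoImplicit false

namespace Pool.Agent.FBD4

variable {M : ℕ} {D : ℕ → Set ℕ}

/-- no levels `≥ H`: the crossing would be a single step, but consecutive states meet -/
theorem Cl.top {H : ℕ} : Cl M H D H := by
  intro A B s s' hs hok hmt hco a b hab hcr
  have h1 : s' = s + 1 := by
    by_contra hcon
    have h2 := (hco (s + 1) (by omega) (by omega)).1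
    have h3 := (hok (s + 1) (by omega) (by omega)).1.hH
    omega
  subst h1
  obtain ⟨m1, m2⟩ := (hmt s le_rfl (by omega)).1
  have h4 := hab.2.2.1
  rcases hcr with ⟨k1, k2⟩ | ⟨k1, k2⟩ <;> omega

/-- The dying cell `[a, b]` (case `¬ Gap (D (j + 1)) a b`), all states strictly between touch `[a, b]` and have level
`≥ j + 1`. Children `[a, z]`, `[z, z']` from `Walls.children`; both are crossed by `A` on `[r, r']`, so `Cl (j + 1)` gives times `u1`, `u2` and
cells `[a1, b1]`, `[a2, b2]` of `D (j + 1)`, born at `j + 1`, with the labels of `[a, z]`, `[z, z']`, touched by `B`. These are two events of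
the row `j + 1`; by `track` on the closed interval between `u1` and `u2` (strictly inside `(r, r')`) `idx a2 b2 = idx a1 b1 + 1`.
`psn D a1 b1 = psn D a z = 0` (`lab_first`), so by `first_parent` `[a1, b1]` is the first child of a cell `[a1, B']` of `D j`; its
second child (`Walls.children`) has index `idx a1 b1 + 1`, so it is `[a2, b2]` (`idx_inj`). `lab_first` for both and
`pay D a1 b1 = pay D a z` give equal birth codes (so equal births, `bi_inj`), symbols and positions of `[a1, B']` and `[a, b]`;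
`lab_second` for both and `pay D a2 b2 = pay D z z'` give equal payloads. The time is `u1`. -/
theorem Walls.stp_dying (W : Walls M D) {H j : ℕ} (hCl : Cl M H D (j + 1)) (A B : ℕ → St)
    (r r' : ℕ) (hr : r < r') (hok : ∀ u, r ≤ u → u ≤ r' → Ok M H D (A u) ∧ Ok M H D (B u))
    (hmt : ∀ u, r ≤ u → u < r' → Mt (A u) (A (u + 1)) ∧ Mt (B u) (B (u + 1)))
    (hco : ∀ u, r < u → u < r' → j + 1 ≤ (A u).lv ∧ col D (A u) = col D (B u))
    (a b : ℕ) (h : Gap (D j) a b) (hn : ¬ Gap (D (j + 1)) a b)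
    (hcr : (A r).hi < a ∧ b < (A r').lo ∨ (A r').hi < a ∧ b < (A r).lo)
    (htch : ∀ u, r < u → u < r' → Tch (A u) a b) :
    ∃ u, r < u ∧ u < r' ∧ Tch (A u) a b ∧ ∃ a' b', Gap (D j) a' b' ∧ Tch (B u) a' b' ∧
      bth D a' b' = bth D a b ∧ lab D a' b' = lab D a b := by
  obtain ⟨z, z', g1, g2, hzb, hz'b, hb1, hb2, hidx⟩ := W.children h hn
  have haz := g1.2.2.1
  have hzz := g2.2.2.1
  obtain ⟨u1, p1, q1, t1, a1, b1, G1, T1, B1, L1⟩ := hCl A B r r' hr hok hmt hco a z g1 (by
    rcases hcr with ⟨k1, k2⟩ | ⟨k1, k2⟩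
    · left; exact ⟨k1, by omega⟩
    · right; exact ⟨k1, by omega⟩)
  obtain ⟨u2, p2, q2, t2, a2, b2, G2, T2, B2, L2⟩ := hCl A B r r' hr hok hmt hco z z' g2 (by
    rcases hcr with ⟨k1, k2⟩ | ⟨k1, k2⟩
    · left; exact ⟨by omega, by omega⟩
    · right; exact ⟨by omega, by omega⟩)
  have L1s : sz (idx D a1 b1) = sz (idx D a z) := congrArg Prod.fst L1
  have L2s : sz (idx D a2 b2) = sz (idx D z z') := congrArg Prod.fst L2
  have L1p : psn D a1 b1 = psn D a z := congrArg (fun x : Lb => x.2.1) L1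
  have L1y : pay D a1 b1 = pay D a z := congrArg (fun x : Lb => x.2.2) L1
  have L2y : pay D a2 b2 = pay D z z' := congrArg (fun x : Lb => x.2.2) L2
  have B1' : bth D a1 b1 = j + 1 := B1.trans hb1
  have B2' : bth D a2 b2 = j + 1 := B2.trans hb2
  have e1 : Ev D (j + 1) (A u1) (B u1) (idx D a z) (idx D a1 b1) :=
    ⟨a, z, a1, b1, g1, hb1, t1, rfl, G1, B1', T1, rfl, L1s.symm⟩
  have e2 : Ev D (j + 1) (A u2) (B u2) (idx D z z') (idx D a2 b2) :=
    ⟨z, z', a2, b2, g2, hb2, t2, rfl, G2, B2', T2, rfl, L2s.symm⟩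
  have hid : idx D a2 b2 = idx D a1 b1 + 1 := by
    rcases le_total u1 u2 with hu | hu
    · have ht := W.track hCl A B u1 u2 (fun u i1 i2 => hok u (by omega) (by omega))
        (fun u i1 i2 => hmt u (by omega) (by omega))
        (fun u i1 i2 => hco u (by omega) (by omega)) u1 u2 _ _ _ _ le_rfl hu le_rfl e1 e2
      omega
    · have ht := W.track hCl A B u2 u1 (fun u i1 i2 => hok u (by omega) (by omega))
        (fun u i1 i2 => hmt u (by omega) (by omega))
        (fun u i1 i2 => hco u (by omega) (by omega)) u2 u1 _ _ _ _ le_rfl hu le_rfl e2 e1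
      omega
  obtain ⟨f1, f2⟩ := W.lab_first h g1 hb1
  obtain ⟨B', hP', hbB'⟩ := W.first_parent G1 B1' (L1p.trans f1)
  have hn' : ¬ Gap (D (j + 1)) a1 B' := fun hg => hg.2.2.2 b1 G1.2.1 ⟨G1.2.2.1, hbB'⟩
  obtain ⟨w, w', c1, c2, hwB, hw'B, cb1, cb2, hidx'⟩ := W.children hP' hn'
  have hw : w = b1 := gap_eq c1 G1
  subst hw
  obtain ⟨i1, i2⟩ := Walls.idx_inj c2 cb2 G2 B2' (by rw [hidx', hid])
  obtain ⟨f1', f2'⟩ := W.lab_first hP' c1 cb1
  obtain ⟨s1, s2⟩ := W.lab_second h g1 g2 hz'b hb2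
  obtain ⟨s1', s2'⟩ := W.lab_second hP' c1 c2 hw'B cb2
  have hpay1 : some (bi (bth D a1 B') (j + 1), sz (idx D a1 B'), psn D a1 B') =
      some (bi (bth D a b) (j + 1), sz (idx D a b), psn D a b) := by
    rw [← f2', ← f2, L1y]
  have hpay2 : pay D a1 B' = pay D a b := by
    rw [← s2', ← s2, ← L2y, i1, i2]
  have hpay3 := Option.some.inj hpay1
  have hbi : bi (bth D a1 B') (j + 1) = bi (bth D a b) (j + 1) := congrArg Prod.fst hpay3
  have hsz : sz (idx D a1 B') = sz (idx D a b) := congrArg (fun x => x.2.1) hpay3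
  have hps : psn D a1 B' = psn D a b := congrArg (fun x => x.2.2) hpay3
  have hl1 := W.bth_le hP'
  have hl2 := W.bth_le h
  have hbth : bth D a1 B' = bth D a b := bi_inj (by omega) (by omega) hbi
  refine ⟨u1, p1, q1, ⟨le_trans t1.1 hzb.le, t1.2⟩, a1, B', hP', ⟨le_trans T1.1 hbB'.le, T1.2⟩,
    hbth, ?_⟩
  unfold lab
  rw [hsz, hps, hpay2]

/-- STEP of the claim. Pass to a minimal crossing (`min_cross`). If some state strictly between has level `j`: `reveal`. Otherwise
all have level `≥ j + 1`. If `[a, b]` is a gap of `D (j + 1)`: `Cl (j + 1)`, and the cell found for `B` has birth `≤ j`, so it is a gap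
of `D j` (`gap_of_bth`). Otherwise `stp_dying`. -/
theorem Walls.stp (W : Walls M D) {H j : ℕ} (hCl : Cl M H D (j + 1)) : Cl M H D j := by
  intro A B s s' hs hok hmt hco a b hab hcr
  obtain ⟨r, r', h1, h2, h3, hcr', htch⟩ := min_cross A a b s s' hs hcr
  by_cases hlv : ∃ u, r < u ∧ u < r' ∧ (A u).lv = j
  · obtain ⟨u, u1, u2, hu⟩ := hlv
    obtain ⟨hA, hB⟩ := hok u (by omega) (by omega)
    have hg : Gap (D (A u).lv) a b := by rw [hu]; exact hab
    obtain ⟨a', b', k1, k2, k3, k4⟩ :=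
      W.reveal hA hB (hco u (by omega) (by omega)).2 hg (htch u u1 u2)
    rw [hu] at k1
    exact ⟨u, by omega, by omega, htch u u1 u2, a', b', k1, k2, k3, k4⟩
  · have hco' : ∀ u, r < u → u < r' → j + 1 ≤ (A u).lv ∧ col D (A u) = col D (B u) := by
      intro u u1 u2
      obtain ⟨k1, k2⟩ := hco u (by omega) (by omega)
      have k3 : (A u).lv ≠ j := fun hu => hlv ⟨u, u1, u2, hu⟩
      exact ⟨by omega, k2⟩
    have hok' : ∀ u, r ≤ u → u ≤ r' → Ok M H D (A u) ∧ Ok M H D (B u) :=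
      fun u u1 u2 => hok u (by omega) (by omega)
    have hmt' : ∀ u, r ≤ u → u < r' → Mt (A u) (A (u + 1)) ∧ Mt (B u) (B (u + 1)) :=
      fun u u1 u2 => hmt u (by omega) (by omega)
    by_cases hg : Gap (D (j + 1)) a b
    · obtain ⟨u, u1, u2, ht, a', b', k1, k2, k3, k4⟩ :=
        hCl A B r r' h2 hok' hmt' hco' a b hg hcr'
      refine ⟨u, by omega, by omega, ht, a', b', ?_, k2, k3, k4⟩
      exact W.gap_of_bth k1 (by rw [k3]; exact W.bth_le hab) (Nat.le_succ j)
    · obtain ⟨u, u1, u2, k⟩ := W.stp_dying hCl A B r r' h2 hok' hmt' hco' a b hab hg hcr' htch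
      exact ⟨u, by omega, by omega, k⟩

/-- the claim at all levels -/
theorem Walls.cl (W : Walls M D) {H j : ℕ} (hj : j ≤ H) : Cl M H D j := by
  obtain ⟨d, rfl⟩ := Nat.exists_eq_add_of_le hj
  have key : ∀ d i H, i + d = H → Cl M H D i := by
    intro d
    induction d with
    | zero =>
      intro i H hi
      have : i = H := by omega
      subst this
      exact Cl.top
    | succ d ih =>
      intro i H hi
      exact W.stp (ih (i + 1) H (by omega))
  exact key d j (j + d) rfl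

end Pool.Agent.FBD4
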