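import Pool.Agent.Lib.MP_fbd18f_co.L4.Gsy
import Pool.Agent.Lib.MP_fbd18f_co.L4.Stp

/-! ROW fbd4-Fnl: a walk with repeated colours has a pair of matched states in the same slot. -/

set_option autoImplicit false

namespace Pool.Agent.FBD4

variable {M : ℕ} {D : ℕ → Set ℕ}

/-- PROOF. Let `s < T` have minimal level `j` among `p 0, …, p (T - 1)` (equal colours: also minimal among all `2 T` states). Let
`[a, b]` be the cell of `D j` at `(p s).hi + 1` (`Walls.gap_at`), `[a', b']` the one for `p (s + T)`. The third component of the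
colours shows that they have the same birth (`bi_inj`) and label. With `t = bth D a b ≤ j` both are gaps of `D t`
(`gap_of_bth`) born at `t`, touched by `p s`, `p (s + T)` (`a ≤ hi`, `lo ≤ hi < b`), and `sz (idx) = sz (idx)`: an event of the row `t`. `gsync`
with `Walls.cl` (`t ≤ j < H`) gives equal indices, `idx_inj` gives `a = a'`. -/
theorem Walls.final (W : Walls M D) {H : ℕ} (p : ℕ → St) (T : ℕ) (hT : 1 ≤ T)
    (hok : ∀ u, u < 2 * T → Ok M H D (p u)) (hmt : ∀ u, u + 1 < 2 * T → Mt (p u) (p (u + 1)))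
    (hco : ∀ u, u < T → col D (p u) = col D (p (u + T))) :
    ∃ s, s < T ∧ (p s).lv = (p (s + T)).lv ∧
      pv (D (p s).lv) ((p s).hi + 1) = pv (D (p s).lv) ((p (s + T)).hi + 1) := by
  obtain ⟨s, hs, hmin⟩ : ∃ s, s < T ∧ ∀ u, u < T → (p s).lv ≤ (p u).lv := by
    obtain ⟨s, hs, hm⟩ := Finset.exists_min_image (Finset.range T) (fun u => (p u).lv)
      ⟨0, Finset.mem_range.mpr (by omega)⟩
    exact ⟨s, Finset.mem_range.mp hs, fun u hu => hm u (Finset.mem_range.mpr hu)⟩
  have hlvT : ∀ u, u < T → (p u).lv = (p (u + T)).lv := fun u hu => congrArg Prod.fst (hco u hu)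
  have hmin2 : ∀ u, u < 2 * T → (p s).lv ≤ (p u).lv := by
    intro u hu
    rcases Nat.lt_or_ge u T with h | h
    · exact hmin u h
    · have h1 := hmin (u - T) (by omega)
      have h2 := hlvT (u - T) (by omega)
      rw [Nat.sub_add_cancel h] at h2
      omega
  refine ⟨s, hs, hlvT s hs, ?_⟩
  have hc3 : sho D (p s).lv ((p s).hi + 1) = sho D (p (s + T)).lv ((p (s + T)).hi + 1) :=
    congrArg (fun x => x.2.2) (hco s hs)
  rw [← hlvT s hs] at hc3
  have hok1 := hok s (by omega)
  have hok2 := hok (s + T) (by omega)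
  obtain ⟨g1, g2, g3⟩ := W.gap_at (p s).lv (x := (p s).hi + 1) (by omega)
  obtain ⟨g1', g2', g3'⟩ := W.gap_at (p s).lv (x := (p (s + T)).hi + 1) (by omega)
  unfold sho at hc3
  have e1 := congrArg Prod.fst hc3
  have e2 := congrArg Prod.snd hc3
  simp only at e1 e2
  generalize pv (D (p s).lv) ((p s).hi + 1) = a at *
  generalize pv (D (p s).lv) ((p (s + T)).hi + 1) = a' at *
  generalize nx (D (p s).lv) a = b at *
  generalize nx (D (p s).lv) a' = b' at *
  have hb : bth D a b = bth D a' b' := bi_inj (W.bth_le g1) (W.bth_le g1') e1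
  have h1 : bth D a b ≤ (p s).lv := W.bth_le g1
  have G1 : Gap (D (bth D a b)) a b := W.gap_of_bth g1 le_rfl h1
  have G2 : Gap (D (bth D a b)) a' b' := W.gap_of_bth g1' (le_of_eq hb.symm) h1
  have hs2 : sz (idx D a b) = sz (idx D a' b') := congrArg Prod.fst e2
  have hH : bth D a b ≤ H := le_trans h1 hok1.hH.le
  have hev : Ev D (bth D a b) (p s) (p (s + T)) (idx D a b) (idx D a' b') := by
    refine ⟨a, b, a', b', G1, rfl, ⟨?_, ?_⟩, rfl, G2, hb.symm, ⟨?_, ?_⟩, rfl, hs2⟩
    · have := hok1.hle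
      omega
    · omega
    · have := hok2.hle
      omega
    · omega
  have hfin := W.gsync (W.cl hH) p T hok hmt (fun u hu => le_trans h1 (hmin2 u hu)) hco s _ _ hs hev
  exact (Walls.idx_inj G1 rfl G2 hb.symm hfin).1

end Pool.Agent.FBD4
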