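import Pool.Agent.Lib.MP_fbd18f_co.L4.Ver
import Pool.Agent.Lib.MP_fbd18f_co.L4.Cnt
import Pool.Agent.Lib.MP_fbd18f_co.L4.Fnl
import Pool.Agent.Lib.MP_fbd18f_co.LAYERS
import Pool.Agent.Lib.MP_fbd18f_co.GRIDS

/-! ROW fbd4-Cor: layers, grids and the combinatorial core. -/

set_option autoImplicit false

namespace Pool.Agent.FBD4

open Classical in
/-- LAYERS AND GRIDS. Apply `FBD.layers` and `FBD.grids` to the shifted intervals `[lo v + 1, hi v + 1]`; take
`B j ∪ {0}` (the intervals do not contain `0`). `FBD.Grids.hit` and `FBD.Grids.two` are stated with `FBD.cnt` (a `Nat.count`);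
`FBD.layers` gives the bound for the number of intervals of a layer containing a point. -/
theorem exists_lay {V : Type} [Fintype V] (lo hi : V → ℕ) (hle : ∀ v, lo v ≤ hi v) (w : ℕ)
    (hw : ∀ p, ((Finset.univ : Finset V).filter (fun v => lo v ≤ p ∧ p ≤ hi v)).card ≤ w) :
    ∃ (M : ℕ) (B : ℕ → Set ℕ) (lam : V → ℕ), (∀ v, lam v ≤ w) ∧
      Lay M B (fun v => lo v + 1) (fun v => hi v + 1) lam := by
  obtain ⟨lam, h1, h2, h3⟩ := FBD.layers (fun v => lo v + 1) (fun v => hi v + 1)
    (fun v => Nat.succ_le_succ (hle v)) w (by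
      intro p
      rcases Nat.eq_zero_or_pos p with hp | hp
      · subst hp
        rw [Finset.card_eq_zero.mpr]
        · exact Nat.zero_le _
        · rw [Finset.filter_eq_empty_iff]
          intro v _ h
          exact absurd h.1 (by omega)
      · refine le_trans (Finset.card_le_card ?_) (hw (p - 1))
        intro v hv
        rw [Finset.mem_filter] at hv ⊢
        exact ⟨hv.1, by omega, by omega⟩)
  obtain ⟨B, M, G⟩ := FBD.grids (fun v => lo v + 1) (fun v => hi v + 1)
    (fun v => Nat.succ_le_succ (hle v)) lam h2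
  refine ⟨M + 1, fun j => B j ∪ {0}, lam, fun v => (h1 v).2, ?_⟩
  refine
    { W :=
        { mono := fun i j hij => Set.union_subset_union_left _ (G.mono i j hij)
          zero := Or.inr rfl
          pad := fun x hx => Or.inl (G.pad 0 x (by omega))
          M0 := Nat.succ_pos _ }
      hle := fun v => Nat.succ_le_succ (hle v)
      h1 := fun v => Nat.succ_le_succ (Nat.zero_le _)
      hM := fun v => lt_trans (G.hiM v) (Nat.lt_succ_self _)
      hit := ?_
      two := ?_
      lay := ?_ }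
  · intro v j hj
    obtain ⟨p, hp, ha, hb, _⟩ := FBD.grids_next (S := B j) (hi v + 1 + 1) (x := lo v + 1)
      (y := hi v + 1 + 1) (by omega) (G.hit v j hj)
    exact ⟨p, Or.inl hp, ha, by simpa using Nat.lt_succ_iff.mp hb⟩
  · intro v j hj z1 hz1 z2 hz2 z3 hz3 hl h12 h23 h3h
    have hB : ∀ z ∈ B j ∪ {0}, 1 ≤ z → z ∈ B j := by
      intro z hz h
      rcases hz with hz | hz
      · exact hz
      · exact absurd hz (by rw [Set.mem_singleton_iff]; omega)
    have hl' : lo v + 1 ≤ z1 := hl
    have h3h' : z3 ≤ hi v + 1 := h3h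
    have m1 := hB z1 hz1 (by omega)
    have m2 := hB z2 hz2 (by omega)
    have m3 := hB z3 hz3 (by omega)
    have c1 := FBD.grids_lt m1 hl' h12
    have c2 := FBD.grids_lt m2 (le_refl z2) h23
    have c3 := FBD.grids_lt m3 (le_refl z3) (Nat.lt_succ_of_le h3h')
    have c4 : FBD.cnt (B j) (hi v + 1 + 1) ≤ FBD.cnt (B j) (lo v + 1) + 2 := G.two v j hj
    have c5 : (hi v + 1).succ = hi v + 1 + 1 := rfl
    rw [c5] at c3
    omega
  · intro p j
    have h := h3 j p
    have e : {v | lam v = j ∧ lo v + 1 ≤ p ∧ p ≤ hi v + 1} =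
        (((Finset.univ : Finset V).filter
          (fun v => lam v = j ∧ lo v + 1 ≤ p ∧ p ≤ hi v + 1) : Finset V) : Set V) := by
      ext v
      simp
    show Set.encard {v | lam v = j ∧ lo v + 1 ≤ p ∧ p ≤ hi v + 1} ≤ 2
    rw [e, Set.encard_coe_eq_coe_finsetCard]
    exact_mod_cast h

open Classical in
/-- CORE. `exists_lay`, `vertices` (`lam v ≤ w < 2 ^ m`), `col_count`. The colour of `v` is the pair of `F (col D (state of v))` and
`f v`; `Fin (2 ^ m * (KK m * KK m)) × (Fin 2 × Fin 2 × Fin 8)` has `32 * (2 ^ m * (KK m * KK m))` elements. If all `k` pairs of matched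
vertices of a path had equal colours then `Walls.final` (with `p u` = the state of the `u`-th vertex for `u < 2 k`; for larger
`u` repeat e.g. the first vertex) would give two matched vertices with the same level and right cell, so they are equal by
`vertices`, contradiction to `p` injective (`k ≥ 1`). -/
theorem core {V : Type} [Fintype V] (lo hi : V → ℕ) (hle : ∀ v, lo v ≤ hi v) (w m : ℕ)
    (hwm : w < 2 ^ m)
    (hw : ∀ p, ((Finset.univ : Finset V).filter (fun v => lo v ≤ p ∧ p ≤ hi v)).card ≤ w) :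
    ∃ c : V → Fin (32 * (2 ^ m * (KK m * KK m))),
      ∀ (k : ℕ) (p : ℕ → V), 1 ≤ k →
        (∀ i j, i < 2 * k → j < 2 * k → p i = p j → i = j) →
        (∀ i, i + 1 < 2 * k → FBD.Mt (lo (p i)) (hi (p i)) (lo (p (i + 1))) (hi (p (i + 1)))) →
        ∃ i, i < k ∧ c (p i) ≠ c (p (i + k)) := by
  obtain ⟨M, B, lam, hlam, L⟩ := exists_lay lo hi hle w hw
  obtain ⟨D, lv, f, W, hA, hok, hinj⟩ := vertices (m := m) L
    (fun v => lt_of_le_of_lt (hlam v) hwm)
  obtain ⟨F, hF⟩ := col_count W hA
  have hcard : Fintype.card (Fin (2 ^ m * (KK m * KK m)) × (Fin 2 × Fin 2 × Fin 8)) =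
      Fintype.card (Fin (32 * (2 ^ m * (KK m * KK m)))) := by
    simp only [Fintype.card_prod, Fintype.card_fin]
    ring
  let e := Fintype.equivOfCardEq hcard
  refine ⟨fun v => e (F (col D ⟨lv v, lo v + 1, hi v + 1⟩), f v), fun k p hk hpi hpm => ?_⟩
  by_contra hcon
  push Not at hcon
  have hc : ∀ i, i < k → F (col D ⟨lv (p i), lo (p i) + 1, hi (p i) + 1⟩) =
      F (col D ⟨lv (p (i + k)), lo (p (i + k)) + 1, hi (p (i + k)) + 1⟩) ∧
      f (p i) = f (p (i + k)) := by
    intro i hi'
    have h := e.injective (hcon i hi')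
    exact ⟨congrArg Prod.fst h, congrArg Prod.snd h⟩
  obtain ⟨s, hs, hlv, hpv⟩ := W.final (H := 2 ^ m)
    (fun u => (⟨lv (p u), lo (p u) + 1, hi (p u) + 1⟩ : St)) k hk
    (fun u _ => hok (p u))
    (fun u hu => by
      have h := hpm u hu
      exact ⟨Nat.succ_le_succ h.1, Nat.succ_le_succ h.2⟩)
    (fun u hu => hF _ _ (hok (p u)) (hok (p (u + k))) (hc u hu).1)
  have hv : p s = p (s + k) := hinj (p s) (p (s + k)) hlv hpv (hc s hs).2
  have := hpi s (s + k) (by omega) (by omega) hv
  omega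

end Pool.Agent.FBD4
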