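import Mathlib

set_option autoImplicit false

/-! Walls, cells, births, labels, colours (bound `C θ (log θ)^4`). All cells are closed intervals
`[a, b]` between consecutive walls. -/

namespace Pool.Agent.FBD4

/-- `a < b` are consecutive elements of `S`: the interval `[a, b]` is a cell -/
def Gap (S : Set ℕ) (a b : ℕ) : Prop := a ∈ S ∧ b ∈ S ∧ a < b ∧ ∀ z ∈ S, ¬ (a < z ∧ z < b)

/-- an increasing sequence of sets of walls, containing `0` and everything from `M` on -/
structure Walls (M : ℕ) (D : ℕ → Set ℕ) : Prop where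
  mono : ∀ i j, i ≤ j → D i ⊆ D j
  zero : 0 ∈ D 0
  pad : ∀ x, M ≤ x → x ∈ D 0
  M0 : 0 < M

/-- greatest element of `S` below `x` -/
noncomputable def pv (S : Set ℕ) (x : ℕ) : ℕ := sSup {p | p ∈ S ∧ p < x}

/-- least element of `S` above `x` -/
noncomputable def nx (S : Set ℕ) (x : ℕ) : ℕ := sInf {p | p ∈ S ∧ x < p}

/-- the time at which `p` is introduced -/
noncomputable def tm (D : ℕ → Set ℕ) (p : ℕ) : ℕ := sInf {i | p ∈ D i}

/-- birth of the cell `[a, b]` -/
noncomputable def bth (D : ℕ → Set ℕ) (a b : ℕ) : ℕ := max (tm D a) (tm D b)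

/-- left end of the parent of the cell `[a, b]` -/
noncomputable def pL (D : ℕ → Set ℕ) (a b : ℕ) : ℕ := pv (D (bth D a b - 1)) (a + 1)

/-- right end of the parent of the cell `[a, b]` -/
noncomputable def pR (D : ℕ → Set ℕ) (a b : ℕ) : ℕ := nx (D (bth D a b - 1)) (pL D a b)

/-- symbol of an index: the residue mod 16 and the odd part mod 8 of `n + 1` -/
def sz (n : ℕ) : ℕ := (n + 1) % 16 + 16 * (((n + 1) / 2 ^ (padicValNat 2 (n + 1))) % 8)

/-- code of the birth `a` relative to the time `t` -/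
def bi (a t : ℕ) : ℕ × ℕ :=
  if a = 0 then (0, 0) else (padicValNat 2 a + 1, (t - a) / 2 ^ (padicValNat 2 a))

/-- payloads: birth code, symbol and position of another cell -/
abbrev Pay : Type := Option ((ℕ × ℕ) × ℕ × ℕ)

/-- labels: symbol, position, payload -/
abbrev Lb : Type := ℕ × ℕ × Pay

/-- left ends of the cells born at time `t` -/
def Rs (D : ℕ → Set ℕ) (t : ℕ) : Set ℕ := {x | x ∈ D t ∧ bth D x (nx (D t) x) = t}

open Classical in
/-- index of the cell `[a, b]` among the cells born at the same time -/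
noncomputable def idx (D : ℕ → Set ℕ) (a b : ℕ) : ℕ := Nat.count (fun x => x ∈ Rs D (bth D a b)) a

open Classical in
/-- position in the family: `0` first child, `1` second child, `2` any other child -/
noncomputable def psn (D : ℕ → Set ℕ) (a b : ℕ) : ℕ :=
  if pL D a b = a then 0 else if pv (D (bth D a b)) a = pL D a b then 1 else 2

open Classical in
/-- payload: the first child carries birth code, symbol and position of its parent, the second child
carries the payload of its parent -/
noncomputable def pay (D : ℕ → Set ℕ) (a b : ℕ) : Pay :=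
  if _h : bth D (pL D a b) (pR D a b) < bth D a b then
    (if psn D a b = 0 then
      some (bi (bth D (pL D a b) (pR D a b)) (bth D a b), sz (idx D (pL D a b) (pR D a b)),
        psn D (pL D a b) (pR D a b))
     else if psn D a b = 1 then pay D (pL D a b) (pR D a b)
     else none)
  else none
termination_by bth D a b

/-- label of a cell -/
noncomputable def lab (D : ℕ → Set ℕ) (a b : ℕ) : Lb :=
  (sz (idx D a b), psn D a b, pay D a b)

/-- what is shown about the cell `[pv x, nx (pv x)]` at the level `i` -/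
noncomputable def sho (D : ℕ → Set ℕ) (i x : ℕ) : (ℕ × ℕ) × Lb :=
  (bi (bth D (pv (D i) x) (nx (D i) (pv (D i) x))) i,
    lab D (pv (D i) x) (nx (D i) (pv (D i) x)))

/-- a state: an interval `[lo, hi]` on the level `lv` -/
structure St where
  lv : ℕ
  lo : ℕ
  hi : ℕ

/-- the state lives below level `H`, inside `[1, M)`, and contains at most one wall of its level -/
structure Ok (M H : ℕ) (D : ℕ → Set ℕ) (s : St) : Prop where
  hH : s.lv < H
  h1 : 1 ≤ s.lo
  hle : s.lo ≤ s.hi
  hM : s.hi < M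
  one : ∀ p ∈ D s.lv, ∀ q ∈ D s.lv, s.lo ≤ p → p < q → s.hi < q

/-- two states meet -/
def Mt (s s' : St) : Prop := s.lo ≤ s'.hi ∧ s'.lo ≤ s.hi

/-- the state touches the cell `[a, b]` -/
def Tch (s : St) (a b : ℕ) : Prop := s.lo ≤ b ∧ a ≤ s.hi

/-- the colour of a state: level and what is shown about its left and its right cell -/
noncomputable def col (D : ℕ → Set ℕ) (s : St) : ℕ × ((ℕ × ℕ) × Lb) × ((ℕ × ℕ) × Lb) :=
  (s.lv, sho D s.lv s.lo, sho D s.lv (s.hi + 1))

/-- the tracking claim at level `j`: if the walker `A` crosses a cell of `D j` and the walkers `A`, `B`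
have the same colours and levels at least `j` in between, then at some time between `A` touches this
cell and `B` touches a cell of `D j` with the same birth and the same label -/
def Cl (M H : ℕ) (D : ℕ → Set ℕ) (j : ℕ) : Prop :=
  ∀ (A B : ℕ → St) (s s' : ℕ), s < s' → (∀ u, s ≤ u → u ≤ s' → Ok M H D (A u) ∧ Ok M H D (B u)) →
    (∀ u, s ≤ u → u < s' → Mt (A u) (A (u + 1)) ∧ Mt (B u) (B (u + 1))) →
    (∀ u, s < u → u < s' → j ≤ (A u).lv ∧ col D (A u) = col D (B u)) →
    ∀ a b, Gap (D j) a b →
      ((A s).hi < a ∧ b < (A s').lo ∨ (A s').hi < a ∧ b < (A s).lo) →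
      ∃ u, s < u ∧ u < s' ∧ Tch (A u) a b ∧ ∃ a' b', Gap (D j) a' b' ∧ Tch (B u) a' b' ∧
        bth D a' b' = bth D a b ∧ lab D a' b' = lab D a b

/-- an event on the row `t`: `X` touches the cell with index `n`, `Y` the cell with index `n'` among
the cells born at time `t`, and the symbols agree -/
def Ev (D : ℕ → Set ℕ) (t : ℕ) (X Y : St) (n n' : ℕ) : Prop :=
  ∃ a b a' b', Gap (D t) a b ∧ bth D a b = t ∧ Tch X a b ∧ idx D a b = n ∧
    Gap (D t) a' b' ∧ bth D a' b' = t ∧ Tch Y a' b' ∧ idx D a' b' = n' ∧ sz n = sz n'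

/-- the walls are aligned: a cell born at time `x > 0` is subdivided by the time `x + 3 * 2 ^ v₂ x` -/
def Aligned (m : ℕ) (D : ℕ → Set ℕ) : Prop :=
  ∀ x a b, 0 < x → x < 2 ^ m → Gap (D x) a b → bth D a b = x →
    x + 3 * 2 ^ (padicValNat 2 x) < 2 ^ m → ∃ z ∈ D (x + 3 * 2 ^ (padicValNat 2 x)), a < z ∧ z < b

/-- `l` is a witness for the delay of the wall `p` -/
structure Dly (m : ℕ) (C D : ℕ → Set ℕ) (p l : ℕ) : Prop where
  ne : l ≠ p
  lC : l ∈ C (tm C p)
  lD : l ∈ D (tm D p - 1)
  pD : p ∈ D (tm D p)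
  H : 2 * tm D p ≤ 2 ^ m + tm C p
  no : ∀ i, i + tm C p < 2 * tm D p → ∀ z ∈ D i, ¬ (min l p < z ∧ z < max l p)

end Pool.Agent.FBD4
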