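import Pool.Agent.Lib.MP_fbd18f_co.L4.Aln

/-! The alignment theorem. -/

set_option autoImplicit false

namespace Pool.Agent.FBD4

/-- a number and its neighbours at distance `2 ^ v₂` -/
theorem Dlz_val {x : ℕ} (hx : 0 < x) :
    (x - 2 ^ padicValNat 2 x ≠ 0 → padicValNat 2 x < padicValNat 2 (x - 2 ^ padicValNat 2 x)) ∧
      padicValNat 2 x < padicValNat 2 (x + 2 ^ padicValNat 2 x) ∧ 2 ^ padicValNat 2 x ≤ x := by
  set v := padicValNat 2 x with hv
  have hd : 2 ^ v ∣ x := pow_padicValNat_dvd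
  obtain ⟨c, hc⟩ := hd
  have hcpos : 0 < c := by
    rcases Nat.eq_zero_or_pos c with h | h
    · rw [h, Nat.mul_zero] at hc
      omega
    · exact h
  have hodd : c % 2 = 1 := by
    by_contra hcon
    have h2 : 2 ∣ c := Nat.dvd_of_mod_eq_zero (by omega)
    obtain ⟨d, hd⟩ := h2
    have h3 : 2 ^ (v + 1) ∣ x := ⟨d, by rw [hc, hd, pow_succ]; ring⟩
    rw [padicValNat_dvd_iff_le (by omega)] at h3
    omega
  have hle : 2 ^ v ≤ x := by
    calc 2 ^ v = 2 ^ v * 1 := by ring
      _ ≤ 2 ^ v * c := Nat.mul_le_mul_left _ hcpos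
      _ = x := hc.symm
  refine ⟨fun hne => ?_, ?_, hle⟩
  · have h3 : 2 ^ (v + 1) ∣ x - 2 ^ v := by
      obtain ⟨d, hd⟩ : ∃ d, c = 2 * d + 1 := ⟨c / 2, by omega⟩
      refine ⟨d, ?_⟩
      have : x = 2 ^ (v + 1) * d + 2 ^ v := by rw [hc, hd, pow_succ]; ring
      omega
    rw [padicValNat_dvd_iff_le hne] at h3
    omega
  · have h3 : 2 ^ (v + 1) ∣ x + 2 ^ v := by
      obtain ⟨d, hd⟩ : ∃ d, c = 2 * d + 1 := ⟨c / 2, by omega⟩
      refine ⟨d + 1, ?_⟩
      rw [hc, hd, pow_succ]; ring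
    rw [padicValNat_dvd_iff_le (by omega)] at h3
    omega

/-- ALIGNMENT THEOREM. Put `D x = F x` for `x < 2 ^ m` and `D x = F (2 ^ m - 1)` for `x ≥ 2 ^ m`, `F` from
`stages`. For a delayed `p` let `L` be the time at which it enters `D` and `x` the time in
`[tm C p, L)` with maximal 2-adic valuation; `Stage.ref` at `x` gives the witness. -/
theorem align {m M : ℕ} {C : ℕ → Set ℕ} (W : Walls M C) :
    ∃ D : ℕ → Set ℕ, Walls M D ∧ (∀ j, D j ⊆ C j) ∧ Aligned m D ∧
      ∀ j, j < 2 ^ m → ∀ p ∈ C j, p ∉ D j → ∃ l, Dly m C D p l := by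
  classical
  obtain ⟨F, hF0, hF⟩ := stages (m := m) W
  have hpow : 1 ≤ 2 ^ m := Nat.one_le_two_pow
  have hadj : ∀ y, y + 1 < 2 ^ m → F y ⊆ F (y + 1) := by
    intro y hy
    exact stage_adj (k := 0) (fun x hx hx2 _ => hF x hx hx2) (one_dvd y) hy
  have hmonoF : ∀ i j, i ≤ j → j < 2 ^ m → F i ⊆ F j := by
    intro i j hij
    induction j, hij using Nat.le_induction with
    | base => exact fun _ => subset_rfl
    | succ j hij ih => exact fun hj => (ih (by omega)).trans (hadj j hj)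
  have hFC : ∀ x, x < 2 ^ m → F x ⊆ C x := by
    intro x hx
    rcases Nat.eq_zero_or_pos x with h | h
    · rw [h, hF0]
    · exact (hF x h hx).sub
  let D : ℕ → Set ℕ := fun x => if x < 2 ^ m then F x else F (2 ^ m - 1)
  have hDlt : ∀ x, x < 2 ^ m → D x = F x := fun x hx => if_pos hx
  have hDge : ∀ x, 2 ^ m ≤ x → D x = F (2 ^ m - 1) := fun x hx => if_neg (by omega)
  have hDmono : ∀ i j, i ≤ j → D i ⊆ D j := by
    intro i j hij
    rcases Nat.lt_or_ge j (2 ^ m) with h | h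
    · rw [hDlt i (by omega), hDlt j h]
      exact hmonoF i j hij h
    · rw [hDge j h]
      rcases Nat.lt_or_ge i (2 ^ m) with h' | h'
      · rw [hDlt i h']
        exact hmonoF i _ (by omega) (by omega)
      · rw [hDge i h']
  have hD0 : D 0 = C 0 := by rw [hDlt 0 (by omega), hF0]
  have WD : Walls M D := ⟨hDmono, by rw [hD0]; exact W.zero, fun x hx => by
    rw [hD0]; exact W.pad x hx, W.M0⟩
  refine ⟨D, WD, ?_, ?_, ?_⟩
  · intro j
    rcases Nat.lt_or_ge j (2 ^ m) with h | h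
    · rw [hDlt j h]; exact hFC j h
    · rw [hDge j h]
      exact (hFC _ (by omega)).trans (W.mono _ _ (by omega))
  · intro x a b hx hx2 hg hb h3
    have hst := hF x hx hx2
    have hval := Dlz_val hx
    rw [hDlt x hx2] at hg
    have hng : ¬ Gap (F (x - 2 ^ padicValNat 2 x)) a b := by
      intro hg'
      have hg2 : Gap (D (x - 2 ^ padicValNat 2 x)) a b := by
        rw [hDlt _ (by omega)]; exact hg'
      have h4 := WD.bth_le hg2
      have h5 : 1 ≤ 2 ^ padicValNat 2 x := Nat.one_le_two_pow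
      omega
    obtain ⟨z, hz, hz1, hz2⟩ := hst.rich a b hg hng h3
    refine ⟨z, ?_, hz1, hz2⟩
    rw [hDlt _ h3]
    exact hz
  · intro j hj p hp hpD
    obtain ⟨hpl, hlj⟩ := W.mem_tm hp
    set lam := tm C p with hlam
    have hlam1 : 1 ≤ lam := by
      rcases Nat.eq_zero_or_pos lam with h | h
      · exfalso
        rw [h, ← hD0] at hpl
        exact hpD (hDmono 0 j (by omega) hpl)
      · exact h
    obtain ⟨L, hjL, hL2, hLno, hLin⟩ : ∃ L, j < L ∧ L ≤ 2 ^ m ∧ (∀ i, i < L → p ∉ F i) ∧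
        (L < 2 ^ m → p ∈ F L) := by
      by_cases hex : ∃ i, i < 2 ^ m ∧ p ∈ F i
      · refine ⟨Nat.find hex, ?_, (Nat.find_spec hex).1.le, ?_, fun _ => (Nat.find_spec hex).2⟩
        · by_contra hcon
          apply hpD
          rw [hDlt j hj]
          exact hmonoF _ _ (by omega) hj (Nat.find_spec hex).2
        · intro i hi hmem
          have h1 := Nat.find_spec hex
          exact Nat.find_min hex hi ⟨by omega, hmem⟩
      · refine ⟨2 ^ m, hj, le_rfl, fun i hi hmem => hex ⟨i, hi, hmem⟩, fun h => by omega⟩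
    obtain ⟨x, hxm, hxmax⟩ := Finset.exists_max_image (Finset.Ico lam L) (padicValNat 2)
      ⟨lam, Finset.mem_Ico.mpr ⟨le_rfl, by omega⟩⟩
    rw [Finset.mem_Ico] at hxm
    have hx0 : 0 < x := by omega
    have hxm2 : x < 2 ^ m := by omega
    obtain ⟨v1, v2, v3⟩ := Dlz_val hx0
    have hst := hF x hx0 hxm2
    set P := 2 ^ padicValNat 2 x with hP
    have hP1 : 1 ≤ P := Nat.one_le_two_pow
    have hA : x - P < lam := by
      by_contra hcon
      have h1 := hxmax (x - P) (Finset.mem_Ico.mpr ⟨by omega, by omega⟩)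
      have h2 := v1 (by omega)
      omega
    have hB : L ≤ x + P := by
      by_contra hcon
      have h1 := hxmax (x + P) (Finset.mem_Ico.mpr ⟨by omega, by omega⟩)
      omega
    obtain ⟨l, hl, hlor, hlne, hlR⟩ := hst.ref p (W.mono _ _ hxm.1 hpl)
      (fun h => hmonoF L _ hB h (hLin (by omega))) (hLno x hxm.2)
    unfold Rch at hlR
    push Not at hlR
    obtain ⟨hR1, hR2⟩ := hlR
    have hLm : L < 2 ^ m := by omega
    have hpL : p ∈ F L := hLin hLm
    have htm : tm D p = L := by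
      have h1 : tm D p ≤ L := Nat.sInf_le (show p ∈ D L by rw [hDlt L hLm]; exact hpL)
      have h2 : p ∈ D (tm D p) :=
        Nat.sInf_mem (s := {i | p ∈ D i}) ⟨L, show p ∈ D L by rw [hDlt L hLm]; exact hpL⟩
      by_contra hcon
      rw [hDlt _ (by omega)] at h2
      exact hLno _ (by omega) h2
    refine ⟨l, ⟨hlne, ?_, ?_, ?_, ?_, ?_⟩⟩
    · rw [← hlam]
      rcases hlor with h | h
      · exact W.mono _ _ (by omega) (hFC _ (by omega) h)
      · exact W.mono _ _ h (W.mem_tm (hFC x hxm2 hl)).1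
    · rw [htm, hDlt _ (by omega)]
      exact hmonoF x _ (by omega) (by omega) hl
    · rw [htm, hDlt _ hLm]
      exact hpL
    · rw [htm, ← hlam]
      omega
    · intro i hi z hz hzz
      rw [htm, ← hlam] at hi
      have hi2 : i < x + 3 * P := by omega
      rw [hDlt i (by omega)] at hz
      exact absurd hzz.2 (not_lt.mpr (hR2 z (hmonoF i _ hi2.le hR1 hz) hzz.1))

end Pool.Agent.FBD4
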