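import Pool.Agent.Lib.MP_fbd18f_co.L4.Bas

/-! ROW fbd4-Grd: the greedy choice of walls. -/

set_option autoImplicit false

namespace Pool.Agent.FBD4

/-- GREEDY LEMMA. `S0` is the current set of walls, `K` a finite set of candidates, `rich a b` an arbitrary predicate
(the cell `[a, b]` is acceptable). Then there is `S0 ⊆ S ⊆ S0 ∪ K` such that every new gap is rich and every refused
candidate `p` has a wall `l ∈ S`, `l ∈ S0` or not younger than `p`, such that the interval between `l` and `p` is not rich.
PROOF. Induction on the number of elements of `K`. Remove from `K` an element `p` of maximal `age`; let `S'` be the set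
for `K \ {p}` (`p ∉ S'`, `p ≥ 1` because `0 ∈ S0`, `p ∉ S0`). Let `l = pv S' p`, `r = nx S' p` (neighbours of `p`; use `pv_spec`,
`nx_spec`). If `rich l p` and `rich p r` put `S = S' ∪ {p}`: a gap of `S` is `(l, p)`, `(p, r)` or a gap of `S'`. Otherwise put
`S = S'`: `l` or `r` is the witness for `p`; elements of `S'` are in `S0` or in `K \ {p}`, so of age at most `age p`. Witnesses
of the other refused candidates stay in `S`. -/
theorem greedy {M : ℕ} (S0 : Set ℕ) (h0 : 0 ∈ S0) (hM : ∀ x, M ≤ x → x ∈ S0) (K : Finset ℕ)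
    (hK : ∀ p ∈ K, p ∉ S0) (age : ℕ → ℕ) (rich : ℕ → ℕ → Prop) :
    ∃ S : Set ℕ, S0 ⊆ S ∧ (∀ p ∈ S, p ∈ S0 ∨ p ∈ K) ∧
      (∀ a b, Gap S a b → ¬ Gap S0 a b → rich a b) ∧
      (∀ p ∈ K, p ∉ S → ∃ l ∈ S, (l ∈ S0 ∨ age l ≤ age p) ∧ l ≠ p ∧ ¬ rich (min l p) (max l p)) := by
  revert hK
  refine Finset.induction_on_max_value (motive := fun K : Finset ℕ => (∀ p ∈ K, p ∉ S0) →
    ∃ S : Set ℕ, S0 ⊆ S ∧ (∀ p ∈ S, p ∈ S0 ∨ p ∈ K) ∧
      (∀ a b, Gap S a b → ¬ Gap S0 a b → rich a b) ∧
      (∀ p ∈ K, p ∉ S → ∃ l ∈ S, (l ∈ S0 ∨ age l ≤ age p) ∧ l ≠ p ∧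
        ¬ rich (min l p) (max l p))) age K ?_ ?_
  · intro _
    exact ⟨S0, subset_rfl, fun p hp => Or.inl hp, fun a b h h' => absurd h h',
      fun p hp => absurd hp (Finset.notMem_empty p)⟩
  · intro p K' hpK hmax ih hK
    obtain ⟨S', h1, h2, h3, h4⟩ := ih fun q hq => hK q (Finset.mem_insert_of_mem hq)
    have hpS0 : p ∉ S0 := hK p (Finset.mem_insert_self p K')
    have hpS : p ∉ S' := fun h => (h2 p h).elim hpS0 hpK
    have hp1 : 1 ≤ p := by
      rcases Nat.eq_zero_or_pos p with h | h
      · rw [h] at hpS0; exact absurd h0 hpS0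
      · exact h
    obtain ⟨l1, l2, l3⟩ := pv_spec (h1 h0) hp1
    obtain ⟨r1, r2, r3⟩ := nx_spec (fun x hx => h1 (hM x hx)) p
    set l := pv S' p with hl
    set r := nx S' p with hr
    have hage : ∀ q ∈ S', q ∈ S0 ∨ age q ≤ age p := fun q hq =>
      (h2 q hq).imp id fun h => hmax q h
    by_cases hrich : rich l p ∧ rich p r
    · refine ⟨insert p S', fun x hx => Set.mem_insert_of_mem p (h1 hx), ?_, ?_, ?_⟩
      · intro q hq
        rcases Set.mem_insert_iff.mp hq with h | h
        · exact Or.inr (by rw [h]; exact Finset.mem_insert_self p K')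
        · exact (h2 q h).imp id fun h' => Finset.mem_insert_of_mem h'
      · intro a b hab hn
        obtain ⟨ha, hb, hlt, hno⟩ := hab
        rcases Set.mem_insert_iff.mp ha with ha' | ha'
        · subst ha'
          rcases Set.mem_insert_iff.mp hb with hb' | hb'
          · omega
          · have e1 := r3 b hb' hlt
            have e2 := hno r (Set.mem_insert_of_mem _ r1)
            have e3 : b = r := by
              by_contra hne
              exact e2 ⟨r2, by omega⟩
            rw [e3]; exact hrich.2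
        · rcases Set.mem_insert_iff.mp hb with hb' | hb'
          · subst hb'
            have e1 := l3 a ha' hlt
            have e2 := hno l (Set.mem_insert_of_mem _ l1)
            have e3 : a = l := by
              by_contra hne
              exact e2 ⟨by omega, l2⟩
            rw [e3]; exact hrich.1
          · exact h3 a b ⟨ha', hb', hlt, fun z hz => hno z (Set.mem_insert_of_mem _ hz)⟩ hn
      · intro q hq hqS
        have hqp : q ≠ p := fun h => hqS (by rw [h]; exact Set.mem_insert p S')
        have hqK : q ∈ K' := (Finset.mem_insert.mp hq).resolve_left hqp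
        have hqS' : q ∉ S' := fun h => hqS (Set.mem_insert_of_mem p h)
        obtain ⟨l', hl1, hl2, hl3, hl4⟩ := h4 q hqK hqS'
        exact ⟨l', Set.mem_insert_of_mem p hl1, hl2, hl3, hl4⟩
    · refine ⟨S', h1, fun q hq => (h2 q hq).imp id fun h => Finset.mem_insert_of_mem h, h3, ?_⟩
      intro q hq hqS
      rcases Finset.mem_insert.mp hq with h | h
      · subst h
        by_cases hrl : rich l q
        · have hrr : ¬ rich q r := fun h => hrich ⟨hrl, h⟩
          refine ⟨r, r1, hage r r1, by omega, ?_⟩
          rw [min_eq_right (le_of_lt r2), max_eq_left (le_of_lt r2)]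
          exact hrr
        · refine ⟨l, l1, hage l l1, by omega, ?_⟩
          rw [min_eq_left (le_of_lt l2), max_eq_right (le_of_lt l2)]
          exact hrl
      · exact h4 q h hqS

end Pool.Agent.FBD4
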