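import Pool.Agent.Lib.MP_fbd18f_co.L4.Trk

/-! ROW fbd4-Gsy: global synchronisation. -/

set_option autoImplicit false

namespace Pool.Agent.FBD4

variable {M : ℕ} {D : ℕ → Set ℕ}

/-- GLOBAL SYNCHRONISATION. A walk `p 0, …, p (2 T - 1)` of states of level `≥ t` with repeated colours: in every event `n = n'`.
PROOF. `A = p`, `B = p (· + T)` on `[0, T - 1]`. By `track` `n' - n = E` for all events, `16 ∣ E` (`sz_mod`). Suppose `E ≠ 0`, let
`u0` be the first time with an event, `(n0, n0')` its indices, `c_k` the cell of the row with index `k` (`idx_exists`; exists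
for `k ≤ max n0 n0'`).
CASE `E > 0`, `n0' = n0 + E`. `B u0` touches `c_(n0')`, so it is strictly right of `c_(n0' - 2)` (`geo_right`). If `(B 0).hi < ` left end of
`c_(n0' - 2)` then `B` crosses this cell on `[0, u0]` and `hCl` for `(B, A)` gives an earlier event. So left end of `c_(n0' - 2)`
`≤ (B 0).hi`, hence right end of `c_(n0' - 4)` `< (B 0).lo` (`geo_right`) `≤ (A (T - 1)).hi` (`p (T - 1)` and `p T` meet), so left end of
`c_(n0' - 4)` `≤ (A (T - 1)).hi` and right end of `c_(n0' - 6)` `< (A (T - 1)).lo` (`geo_right`). `A u0` touches `c_(n0)`, so it is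
strictly left of `c_k` for `k ≥ n0 + 2` (`geo_left`). So for all `k` with `n0 + 2 ≤ k ≤ n0 + E - 6` `A` crosses `c_k` on `[u0, T - 1]`; `hCl`
gives an event with first index `k`, so `sz k = sz (k + E)`. `sz_far (n0 + 2) E` gives a `k` with `2 (k + 1) ≤ 2 (n0 + 2) + E`, i.e.
`k ≤ n0 + 1 + E / 2 ≤ n0 + E - 6` since `E ≥ 16`, contradiction.
CASE `E < 0`, `n0' = n0 - e`, `e ≥ 16`. `B u0` touches `c_(n0')`, so it is strictly left of `c_(n0' + 2)`. As before `B 0` is not strictly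
right of `c_(n0' + 2)`: `(B 0).lo ≤` right end of `c_(n0' + 2)`, `(B 0).hi <` left end of `c_(n0' + 4)` (`geo_left`), so `(A (T - 1)).lo ≤`
right end of `c_(n0' + 4)`, `(A (T - 1)).hi <` left end of `c_(n0' + 6)`. `A u0` is strictly right of `c_k` for `k ≤ n0 - 2`. So for
`n0' + 6 ≤ k ≤ n0 - 2` there is an event with first index `k`, second index `k - e ≥ 0`: `sz k = sz (k - e)`. In particular
`n0' + 6 ≥ e`; `sz_far (n0' + 6 - e) e` gives `k = m + e` in this range with `sz m ≠ sz (m + e)`, contradiction. -/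
theorem Walls.gsync (W : Walls M D) {H t : ℕ} (hCl : Cl M H D t) (p : ℕ → St) (T : ℕ)
    (hok : ∀ u, u < 2 * T → Ok M H D (p u)) (hmt : ∀ u, u + 1 < 2 * T → Mt (p u) (p (u + 1)))
    (hlv : ∀ u, u < 2 * T → t ≤ (p u).lv) (hco : ∀ u, u < T → col D (p u) = col D (p (u + T)))
    (u n n' : ℕ) (hu : u < T) (h : Ev D t (p u) (p (u + T)) n n') : n = n' := by
  have hA : ∀ v, v < T → Ok M H D (p v) := fun v hv => hok v (by omega)
  have hB : ∀ v, v < T → Ok M H D (p (v + T)) := fun v hv => hok (v + T) (by omega)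
  have mA : ∀ v, v + 1 < T → Mt (p v) (p (v + 1)) := fun v hv => hmt v (by omega)
  have mB : ∀ v, v + 1 < T → Mt (p (v + T)) (p (v + 1 + T)) := fun v hv => by
    have h1 := hmt (v + T) (by omega)
    rwa [show v + T + 1 = v + 1 + T by omega] at h1
  have lA : ∀ v, v < T → t ≤ (p v).lv := fun v hv => hlv v (by omega)
  have lB : ∀ v, v < T → t ≤ (p (v + T)).lv := fun v hv => hlv (v + T) (by omega)
  have evsz : ∀ (X Y : St) (x y : ℕ), Ev D t X Y x y → sz x = sz y := by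
    rintro X Y x y ⟨_, _, _, _, _, _, _, _, _, _, _, _, h1⟩
    exact h1
  have tr : ∀ u v n n' k k' : ℕ, u ≤ v → v < T → Ev D t (p u) (p (u + T)) n n' →
      Ev D t (p v) (p (v + T)) k k' → (k : ℤ) - n = (k' : ℤ) - n' := by
    intro u v n n' k k' huv hv h1 h2
    exact W.track hCl p (fun v => p (v + T)) 0 (T - 1)
      (fun x _ hx => ⟨hA x (by omega), hB x (by omega)⟩)
      (fun x _ hx => ⟨mA x (by omega), mB x (by omega)⟩)
      (fun x _ hx => ⟨lA x (by omega), hco x (by omega)⟩)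
      u v n n' k k' (Nat.zero_le _) huv (by omega) h1 h2
  by_contra hne
  obtain ⟨u0, hu0, n0, n0', h0, hu0u, hmin⟩ : ∃ u0, u0 < T ∧ ∃ n0 n0',
      Ev D t (p u0) (p (u0 + T)) n0 n0' ∧ u0 ≤ u ∧
      ∀ w, w < u0 → ∀ x y, ¬ Ev D t (p w) (p (w + T)) x y := by
    classical
    have hP : ∃ v, v < T ∧ ∃ x y, Ev D t (p v) (p (v + T)) x y := ⟨u, hu, n, n', h⟩
    obtain ⟨h1, n0, n0', h2⟩ := Nat.find_spec hP
    refine ⟨Nat.find hP, h1, n0, n0', h2, Nat.find_min' hP ⟨hu, n, n', h⟩, ?_⟩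
    intro w hw x y hx
    exact Nat.find_min hP hw ⟨lt_trans hw h1, x, y, hx⟩
  have hE := tr u0 u n0 n0' n n' hu0u hu h0 h
  have hne0 : n0 ≠ n0' := by
    intro h1
    apply hne
    omega
  have crAB : ∀ c d, Gap (D t) c d → bth D c d = t →
      ((p u0).hi < c ∧ d < (p (T - 1)).lo ∨ (p (T - 1)).hi < c ∧ d < (p u0).lo) →
      ∃ w k', w < T ∧ u0 ≤ w ∧ Ev D t (p w) (p (w + T)) (idx D c d) k' := by
    intro c d hg hb hc
    have hlt : u0 < T - 1 := by
      rcases Nat.lt_or_ge u0 (T - 1) with h1 | h1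
      · exact h1
      · exfalso
        have e : T - 1 = u0 := by omega
        rw [e] at hc
        have h2 := (hA u0 hu0).hle
        have h3 := hg.2.2.1
        omega
    obtain ⟨w, hw1, hw2, ht1, a'', b'', hg', ht2, hb', hl⟩ :=
      hCl p (fun v => p (v + T)) u0 (T - 1) hlt
      (fun x _ hx => ⟨hA x (by omega), hB x (by omega)⟩)
      (fun x _ hx => ⟨mA x (by omega), mB x (by omega)⟩)
      (fun x _ hx => ⟨lA x (by omega), hco x (by omega)⟩) c d hg hc
    exact ⟨w, idx D a'' b'', by omega, by omega, c, d, a'', b'', hg, hb, ht1, rfl, hg',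
      hb'.trans hb, ht2, rfl, (congrArg Prod.fst hl).symm⟩
  have crBA : ∀ c d, Gap (D t) c d → bth D c d = t →
      ((p (0 + T)).hi < c ∧ d < (p (u0 + T)).lo ∨ (p (u0 + T)).hi < c ∧ d < (p (0 + T)).lo) →
      False := by
    intro c d hg hb hc
    have hlt : 0 < u0 := by
      rcases Nat.eq_zero_or_pos u0 with h1 | h1
      · exfalso
        rw [h1] at hc
        have h2 := (hB 0 (by omega)).hle
        have h3 := hg.2.2.1
        omega
      · exact h1
    obtain ⟨w, hw1, hw2, ht1, a'', b'', hg', ht2, hb', hl⟩ :=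
      hCl (fun v => p (v + T)) p 0 u0 hlt
      (fun x _ hx => ⟨hB x (by omega), hA x (by omega)⟩)
      (fun x _ hx => ⟨mB x (by omega), mA x (by omega)⟩)
      (fun x _ hx => ⟨lB x (by omega), (hco x (by omega)).symm⟩) c d hg hc
    exact hmin w hw2 (idx D a'' b'') (idx D c d) ⟨a'', b'', c, d, hg', hb'.trans hb, ht2, rfl,
      hg, hb, ht1, rfl, congrArg Prod.fst hl⟩
  have hTT := hmt (T - 1) (by omega)
  rw [show T - 1 + 1 = 0 + T by omega] at hTT
  obtain ⟨hT1, hT2⟩ := hTT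
  have hT : T - 1 < T := by omega
  have h0T : 0 < T := by omega
  obtain ⟨a, b, a', b', ga, ba, ta, ia, gb, bb, tb, ib, hsz⟩ := id h0
  have hmod := sz_mod hsz
  rcases Nat.lt_or_gt_of_ne hne0 with hlt | hgt
  · obtain ⟨e, he⟩ : ∃ e, n0' = n0 + e := ⟨n0' - n0, by omega⟩
    have h16 : 16 ∣ e := by omega
    have he16 : 16 ≤ e := by omega
    obtain ⟨c2, d2, g2, b2, i2⟩ := W.idx_exists (n := n0' - 2) gb bb (by omega)
    obtain ⟨c4, d4, g4, b4, i4⟩ := W.idx_exists (n := n0' - 4) gb bb (by omega)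
    have r2 := W.geo_right (hB u0 hu0) (lB u0 hu0) g2 b2 gb bb (by omega) tb.2
    have q2 : c2 ≤ (p (0 + T)).hi := by
      by_contra hcon
      exact crBA c2 d2 g2 b2 (Or.inl ⟨by omega, r2⟩)
    have r4 := W.geo_right (hB 0 h0T) (lB 0 h0T) g4 b4 g2 b2 (by omega) q2
    have q4 : c4 ≤ (p (T - 1)).hi := by
      have h3 := g4.2.2.1
      omega
    obtain ⟨k, hk1, hk2, hk3⟩ := sz_far (n0 + 2) e (by omega) (by omega)
    obtain ⟨ck, dk, gk, bk, ik⟩ := W.idx_exists (n := k) gb bb (by omega)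
    have x1 := W.geo_left (hA u0 hu0) (lA u0 hu0) ga ba gk bk (by omega) ta.1
    have x2 := W.geo_right (hA (T - 1) hT) (lA (T - 1) hT) gk bk g4 b4 (by omega) q4
    obtain ⟨w, k', hw, hw0, hev⟩ := crAB ck dk gk bk (Or.inl ⟨x1, x2⟩)
    have h4 := tr u0 w n0 n0' _ k' hw0 hw h0 hev
    have h5 := evsz _ _ _ _ hev
    have h6 : k' = k + e := by omega
    rw [ik, h6] at h5
    exact hk3 h5
  · obtain ⟨e, he⟩ : ∃ e, n0 = n0' + e := ⟨n0 - n0', by omega⟩
    have h16 : 16 ∣ e := by omega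
    have he16 : 16 ≤ e := by omega
    obtain ⟨c2, d2, g2, b2, i2⟩ := W.idx_exists (n := n0' + 2) ga ba (by omega)
    obtain ⟨c4, d4, g4, b4, i4⟩ := W.idx_exists (n := n0' + 4) ga ba (by omega)
    have r2 := W.geo_left (hB u0 hu0) (lB u0 hu0) gb bb g2 b2 (by omega) tb.1
    have q2 : (p (0 + T)).lo ≤ d2 := by
      by_contra hcon
      exact crBA c2 d2 g2 b2 (Or.inr ⟨r2, by omega⟩)
    have r4 := W.geo_left (hB 0 h0T) (lB 0 h0T) g2 b2 g4 b4 (by omega) q2
    have q4 : (p (T - 1)).lo ≤ d4 := by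
      have h3 := g4.2.2.1
      omega
    have key : ∀ k, n0' + 6 ≤ k → k + 2 ≤ n0 → ∃ k', k = k' + e ∧ sz k = sz k' := by
      intro k hk1 hk2
      obtain ⟨ck, dk, gk, bk, ik⟩ := W.idx_exists (n := k) ga ba (by omega)
      have x1 := W.geo_left (hA (T - 1) hT) (lA (T - 1) hT) g4 b4 gk bk (by omega) q4
      have x2 := W.geo_right (hA u0 hu0) (lA u0 hu0) gk bk ga ba (by omega) ta.2
      obtain ⟨w, k', hw, hw0, hev⟩ := crAB ck dk gk bk (Or.inr ⟨x1, x2⟩)
      have h4 := tr u0 w n0 n0' _ k' hw0 hw h0 hev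
      have h5 := evsz _ _ _ _ hev
      rw [ik] at h5
      exact ⟨k', by omega, h5⟩
    obtain ⟨k0, hk0, _⟩ := key (n0' + 6) le_rfl (by omega)
    obtain ⟨m, hm1, hm2, hm3⟩ := sz_far (n0' + 6 - e) e (by omega) (by omega)
    obtain ⟨k', hk', hs⟩ := key (m + e) (by omega) (by omega)
    have h6 : k' = m := by omega
    rw [h6] at hs
    exact hm3 hs.symm

end Pool.Agent.FBD4
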