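import Pool.Agent.Lib.MP_fbd18f_co.L4.Spa

/-! ROW fbd4-Loc: local indices of the vertices of one layer. -/

set_option autoImplicit false

namespace Pool.Agent.FBD4

/-- Intervals `[lo v, hi v]` in layers `lam v`, with nested sets `B j` such that intervals of layers `≥ j` contain at most two
points of `B j` and intervals of layers `≤ j` at least one; every point is in at most two intervals of each layer. -/
structure Lay {V : Type} [Fintype V] (M : ℕ) (B : ℕ → Set ℕ) (lo hi lam : V → ℕ) : Prop where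
  W : Walls M B
  hle : ∀ v, lo v ≤ hi v
  h1 : ∀ v, 1 ≤ lo v
  hM : ∀ v, hi v < M
  hit : ∀ v j, lam v ≤ j → ∃ z ∈ B j, lo v ≤ z ∧ z ≤ hi v
  two : ∀ v j, j ≤ lam v → ∀ z1 ∈ B j, ∀ z2 ∈ B j, ∀ z3 ∈ B j, lo v ≤ z1 → z1 < z2 → z2 < z3 →
    ¬ z3 ≤ hi v
  lay : ∀ p j, Set.encard {v | lam v = j ∧ lo v ≤ p ∧ p ≤ hi v} ≤ 2

/-- An interval of a layer `≥ j` contains at most one point of the sparse grid `C j`. -/
theorem Lay.one {V : Type} [Fintype V] {M : ℕ} {B : ℕ → Set ℕ} {lo hi lam : V → ℕ}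
    (L : Lay M B lo hi lam) {C : ℕ → Set ℕ} (hC : ∀ j, C j ⊆ B j)
    (hs : ∀ j, ∀ p ∈ C j, ∀ q ∈ C j, p < q → q < M → ∃ b ∈ B j, p < b ∧ b < q)
    (v : V) (j : ℕ) (hj : j ≤ lam v) : ∀ p ∈ C j, ∀ q ∈ C j, lo v ≤ p → p < q → hi v < q := by
  intro p hp q hq hlp hpq
  by_contra hcon
  have hqh : q ≤ hi v := by omega
  have hqM : q < M := lt_of_le_of_lt hqh (L.hM v)
  obtain ⟨b, hb, hpb, hbq⟩ := hs j p hp q hq hpq hqM
  exact L.two v j hj p (hC j hp) b hb q (hC j hq) hlp hpb hbq hqh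

/-- three distinct numbers can be ordered -/
theorem Loc_three {P : ℕ → Prop} (h : ∀ x y z, P x → P y → P z → x < y → y < z → False)
    {x y z : ℕ} (hx : P x) (hy : P y) (hz : P z) (hxy : x ≠ y) (hxz : x ≠ z) (hyz : y ≠ z) :
    False := by
  rcases Nat.lt_or_gt_of_ne hxy with h1 | h1 <;> rcases Nat.lt_or_gt_of_ne hxz with h2 | h2 <;>
    rcases Nat.lt_or_gt_of_ne hyz with h3 | h3
  · exact h x y z hx hy hz h1 h3
  · exact h x z y hx hz hy h2 h3
  · omega
  · exact h z x y hz hx hy h2 h1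
  · exact h y x z hy hx hz h1 h2
  · omega
  · exact h y z x hy hz hx h3 h2
  · exact h z y x hz hy hx h3 h1

open Classical in
/-- the points of `B j` in a closed gap of `C j` -/
theorem Loc_card {B : Set ℕ} {a c : ℕ}
    (h3 : ∀ z1 ∈ B, ∀ z2 ∈ B, ∀ z3 ∈ B, a < z1 → z1 < z2 → z2 < z3 → ¬ z3 < c) :
    ((Finset.Icc a c).filter (fun z => z ∈ B)).card ≤ 4 := by
  have h1 : ((Finset.Ioo a c).filter (fun z => z ∈ B)).card ≤ 2 := by
    by_contra hcon
    have h2 : 2 < ((Finset.Ioo a c).filter (fun z => z ∈ B)).card := by omega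
    obtain ⟨x, y, z, hx, hy, hz, hxy, hxz, hyz⟩ := Finset.two_lt_card_iff.1 h2
    refine Loc_three (P := fun t => t ∈ (Finset.Ioo a c).filter (fun z => z ∈ B)) ?_ hx hy hz
      hxy hxz hyz
    intro u v w hu hv hw huv hvw
    rw [Finset.mem_filter, Finset.mem_Ioo] at hu hv hw
    exact h3 u hu.2 v hv.2 w hw.2 hu.1.1 huv hvw hw.1.2
  have h2 : (Finset.Icc a c).filter (fun z => z ∈ B) ⊆
      {a, c} ∪ (Finset.Ioo a c).filter (fun z => z ∈ B) := by
    intro z hz
    rw [Finset.mem_filter, Finset.mem_Icc] at hz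
    rw [Finset.mem_union, Finset.mem_insert, Finset.mem_singleton, Finset.mem_filter,
      Finset.mem_Ioo]
    by_cases h4 : z = a
    · exact Or.inl (Or.inl h4)
    by_cases h5 : z = c
    · exact Or.inl (Or.inr h5)
    exact Or.inr ⟨⟨by omega, by omega⟩, hz.2⟩
  calc ((Finset.Icc a c).filter (fun z => z ∈ B)).card
      ≤ (({a, c} : Finset ℕ) ∪ (Finset.Ioo a c).filter (fun z => z ∈ B)).card :=
        Finset.card_le_card h2
    _ ≤ ({a, c} : Finset ℕ).card + ((Finset.Ioo a c).filter (fun z => z ∈ B)).card :=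
        Finset.card_union_le _ _
    _ ≤ 2 + 2 := Nat.add_le_add Finset.card_le_two h1
    _ = 4 := rfl

open Classical in
/-- the intervals of layer `j` which meet a closed gap of `C j` -/
theorem Loc_eight {V : Type} [Fintype V] {M : ℕ} {B : ℕ → Set ℕ} {lo hi lam : V → ℕ}
    (L : Lay M B lo hi lam) {C : ℕ → Set ℕ} (hC : ∀ j, C j ⊆ B j)
    (h3 : ∀ j a c, Gap (C j) a c → ∀ z1 ∈ B j, ∀ z2 ∈ B j, ∀ z3 ∈ B j,
        a < z1 → z1 < z2 → z2 < z3 → ¬ z3 < c) (j a c : ℕ) (hG : Gap (C j) a c) :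
    (Finset.univ.filter (fun v => lam v = j ∧ lo v ≤ c ∧ a ≤ hi v)).card ≤ 8 := by
  have h1 : Finset.univ.filter (fun v => lam v = j ∧ lo v ≤ c ∧ a ≤ hi v) ⊆
      ((Finset.Icc a c).filter (fun z => z ∈ B j)).biUnion
        (fun z => Finset.univ.filter (fun v => lam v = j ∧ lo v ≤ z ∧ z ≤ hi v)) := by
    intro v hv
    rw [Finset.mem_filter] at hv
    obtain ⟨-, hvj, hvc, hva⟩ := hv
    have hac := hG.2.2.1
    rw [Finset.mem_biUnion]
    obtain ⟨z, hz, hz1, hz2⟩ := L.hit v j (le_of_eq hvj)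
    rcases Nat.lt_or_ge z a with h4 | h4
    · refine ⟨a, ?_, ?_⟩
      · rw [Finset.mem_filter, Finset.mem_Icc]
        exact ⟨⟨le_rfl, hac.le⟩, hC j hG.1⟩
      · rw [Finset.mem_filter]
        exact ⟨Finset.mem_univ _, hvj, by omega, hva⟩
    · rcases Nat.lt_or_ge c z with h5 | h5
      · refine ⟨c, ?_, ?_⟩
        · rw [Finset.mem_filter, Finset.mem_Icc]
          exact ⟨⟨hac.le, le_rfl⟩, hC j hG.2.1⟩
        · rw [Finset.mem_filter]
          exact ⟨Finset.mem_univ _, hvj, hvc, by omega⟩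
      · refine ⟨z, ?_, ?_⟩
        · rw [Finset.mem_filter, Finset.mem_Icc]
          exact ⟨⟨h4, h5⟩, hz⟩
        · rw [Finset.mem_filter]
          exact ⟨Finset.mem_univ _, hvj, hz1, hz2⟩
  have h2 : ∀ z ∈ (Finset.Icc a c).filter (fun z => z ∈ B j),
      (Finset.univ.filter (fun v => lam v = j ∧ lo v ≤ z ∧ z ≤ hi v)).card ≤ 2 := by
    intro z _
    have h4 := L.lay z j
    have h5 : ({v | lam v = j ∧ lo v ≤ z ∧ z ≤ hi v} : Set V) =
        ((Finset.univ.filter (fun v => lam v = j ∧ lo v ≤ z ∧ z ≤ hi v) : Finset V) : Set V) := by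
      ext v
      simp
    rw [h5, Set.encard_coe_eq_coe_finsetCard] at h4
    exact_mod_cast h4
  calc (Finset.univ.filter (fun v => lam v = j ∧ lo v ≤ c ∧ a ≤ hi v)).card
      ≤ (((Finset.Icc a c).filter (fun z => z ∈ B j)).biUnion
        (fun z => Finset.univ.filter (fun v => lam v = j ∧ lo v ≤ z ∧ z ≤ hi v))).card :=
        Finset.card_le_card h1
    _ ≤ ((Finset.Icc a c).filter (fun z => z ∈ B j)).card * 2 :=
        Finset.card_biUnion_le_card_mul _ _ _ h2
    _ ≤ 4 * 2 := Nat.mul_le_mul_right 2 (Loc_card (h3 j a c hG))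
    _ = 8 := rfl

/-- LOCAL INDEX. There is `g : V → ℕ → Fin 8` such that the intervals `v` of layer `j` meeting the closed gap `[a, c]` of `C j` are
distinguished by `g v a`. PROOF: such a `v` contains a point of `B j` (`hit`) and hence a point of `B j ∩ [a, c]` (if the
point is outside then `v` contains `a` or `c`, and `C j ⊆ B j`); `B j ∩ [a, c]` has at most four points (`h3`: at most two
strictly inside) and each is in at most two intervals of the layer `j`. So for each `j`, `a` the set of these `v` has at most 8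
elements (`Set.encard ≤ 8`, finite) and injects into `Fin 8`; choose the injections. -/
theorem Lay.loc {V : Type} [Fintype V] {M : ℕ} {B : ℕ → Set ℕ} {lo hi lam : V → ℕ}
    (L : Lay M B lo hi lam) {C : ℕ → Set ℕ} (WC : Walls M C) (hC : ∀ j, C j ⊆ B j)
    (h3 : ∀ j a c, Gap (C j) a c → ∀ z1 ∈ B j, ∀ z2 ∈ B j, ∀ z3 ∈ B j,
        a < z1 → z1 < z2 → z2 < z3 → ¬ z3 < c) :
    ∃ g : V → ℕ → Fin 8, ∀ v v' a c, lam v = lam v' → Gap (C (lam v)) a c →
      lo v ≤ c → a ≤ hi v → lo v' ≤ c → a ≤ hi v' → g v a = g v' a → v = v' := by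
  classical
  have key : ∀ j a, ∃ f : V → Fin 8, ∀ v v' c, lam v = j → lam v' = j → Gap (C j) a c →
      lo v ≤ c → a ≤ hi v → lo v' ≤ c → a ≤ hi v' → f v = f v' → v = v' := by
    intro j a
    by_cases hex : ∃ c, Gap (C j) a c
    · obtain ⟨c, hc⟩ := hex
      have h8 := Loc_eight L hC h3 j a c hc
      obtain ⟨T, hT⟩ : ∃ T : Finset V,
          T = Finset.univ.filter (fun v => lam v = j ∧ lo v ≤ c ∧ a ≤ hi v) := ⟨_, rfl⟩
      have hTc : Fintype.card T ≤ Fintype.card (Fin 8) := by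
        rw [Fintype.card_coe, Fintype.card_fin, hT]
        exact h8
      obtain ⟨e⟩ := Function.Embedding.nonempty_of_card_le hTc
      refine ⟨fun v => if h : v ∈ T then e ⟨v, h⟩ else 0, ?_⟩
      intro v v' c' hv hv' hG h1 h2 h4 h5 heq
      have hcc : c' = c := gap_eq hG hc
      subst hcc
      have hvT : v ∈ T := by
        rw [hT, Finset.mem_filter]
        exact ⟨Finset.mem_univ _, hv, h1, h2⟩
      have hvT' : v' ∈ T := by
        rw [hT, Finset.mem_filter]
        exact ⟨Finset.mem_univ _, hv', h4, h5⟩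
      simp only [dif_pos hvT, dif_pos hvT'] at heq
      have := e.injective heq
      exact congrArg Subtype.val this
    · refine ⟨fun _ => 0, ?_⟩
      intro v v' c _ _ hG
      exact absurd ⟨c, hG⟩ hex
  choose f hf using key
  refine ⟨fun v a => f (lam v) a v, ?_⟩
  intro v v' a c hl hG h1 h2 h4 h5 heq
  refine hf (lam v) a v v' c rfl hl.symm hG h1 h2 h4 h5 ?_
  have heq' : f (lam v) a v = f (lam v') a v' := heq
  rw [← hl] at heq'
  exact heq'

end Pool.Agent.FBD4
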