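import Pool.Agent.Lib.MP_fbd18f_co.L4.Cor
import Pool.Agent.Lib.MP_fbd18f_co.CORE

/-! ROW fbd4-Mai: numerics and main theorem. -/

set_option autoImplicit false

namespace Pool.Agent.FBD4

/-- NUMERICS. Let `m ≥ 1` be the least number with `θ + 1 < 2 ^ m`, so `2 ^ m ≤ 2 (θ + 1) ≤ 4 θ` and with
`L = logb 2 (θ + 1) ≥ 1`: `m ≤ L + 1`, `m + 1 ≤ 3 L`. `KK m = 4 (m + 1) * (384 * (1 + 1536 (m + 1))) ≤ 12 L * 384 * 4609 L`, so the left side is at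
most `32 * 4 θ * (21240000 L ^ 2) ^ 2 ≤ 10 ^ 17 θ L ^ 4`. -/
theorem numerics (θ : ℕ) (hθ : 1 ≤ θ) :
    ∃ m : ℕ, θ + 1 < 2 ^ m ∧
      (((32 * (2 ^ m * (KK m * KK m))) : ℕ) : ℝ) ≤ 10 ^ 17 * θ * (Real.logb 2 (θ + 1)) ^ 4 := by
  have hn : θ + 1 ≠ 0 := by omega
  refine ⟨Nat.log 2 (θ + 1) + 1, Nat.lt_pow_succ_log_self (by norm_num) _, ?_⟩
  set m := Nat.log 2 (θ + 1) with hm
  set L := Real.logb 2 ((θ : ℝ) + 1) with hL
  have hθ' : (1 : ℝ) ≤ θ := by exact_mod_cast hθ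
  have hL1 : 1 ≤ L := by
    rw [hL, Real.le_logb_iff_rpow_le (by norm_num) (by linarith), Real.rpow_one]
    linarith
  have hpow : (2 : ℝ) ^ m ≤ θ + 1 := by
    have h1 : 2 ^ m ≤ θ + 1 := Nat.pow_log_le_self 2 hn
    exact_mod_cast h1
  have hmL : (m : ℝ) ≤ L := by
    rw [hL, Real.le_logb_iff_rpow_le (by norm_num) (by linarith), Real.rpow_natCast]
    exact hpow
  have hm0 : (0 : ℝ) ≤ m := Nat.cast_nonneg m
  have hKK : ((KK (m + 1) : ℕ) : ℝ) ≤ 21238272 * L ^ 2 := by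
    have h1 : ((KK (m + 1) : ℕ) : ℝ) = 1536 * ((m : ℝ) + 2) * (1 + 1536 * ((m : ℝ) + 2)) := by
      unfold KK
      push_cast
      ring
    have h2 : (m : ℝ) + 2 ≤ 3 * L := by linarith
    have h3 : 1 + 1536 * ((m : ℝ) + 2) ≤ 4609 * L := by linarith
    have h4 : 1536 * ((m : ℝ) + 2) ≤ 4608 * L := by linarith
    rw [h1]
    calc 1536 * ((m : ℝ) + 2) * (1 + 1536 * ((m : ℝ) + 2)) ≤ (4608 * L) * (4609 * L) :=
          mul_le_mul h4 h3 (by positivity) (by linarith)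
      _ = 21238272 * L ^ 2 := by ring
  have hK0 : (0 : ℝ) ≤ ((KK (m + 1) : ℕ) : ℝ) := Nat.cast_nonneg _
  have h5 : ((KK (m + 1) : ℕ) : ℝ) * ((KK (m + 1) : ℕ) : ℝ) ≤ (21238272 * L ^ 2) * (21238272 * L ^ 2) :=
    mul_le_mul hKK hKK hK0 (by positivity)
  have h6 : (2 : ℝ) ^ (m + 1) ≤ 4 * θ := by
    rw [pow_succ]
    linarith
  push_cast
  calc (32 : ℝ) * (2 ^ (m + 1) * (((KK (m + 1) : ℕ) : ℝ) * ((KK (m + 1) : ℕ) : ℝ)))
      ≤ 32 * ((4 * θ) * ((21238272 * L ^ 2) * (21238272 * L ^ 2))) := by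
        have h7 : (2 : ℝ) ^ (m + 1) * (((KK (m + 1) : ℕ) : ℝ) * ((KK (m + 1) : ℕ) : ℝ))
            ≤ (4 * θ) * ((21238272 * L ^ 2) * (21238272 * L ^ 2)) :=
          mul_le_mul h6 h5 (mul_nonneg hK0 hK0) (by linarith)
        linarith
    _ = (32 * 4 * 21238272 * 21238272) * (θ * L ^ 4) := by ring
    _ ≤ 10 ^ 17 * (θ * L ^ 4) := by
        refine mul_le_mul_of_nonneg_right (by norm_num) (by positivity)
    _ = 10 ^ 17 * θ * L ^ 4 := by ring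

/-- MAIN THEOREM: as `FBD.main` (`FBD.intervals_of_decomp`) with `core` and `numerics`. -/
theorem main (V : Type) [Fintype V] (G : SimpleGraph V) (θ : ℕ) (hθ : 1 ≤ θ) (B : ℕ → Finset V)
    (h1 : ∀ i, (B i).card ≤ θ + 1)
    (h2 : ∀ v, ∃ i, v ∈ B i)
    (h3 : ∀ u v, G.Adj u v → ∃ i, u ∈ B i ∧ v ∈ B i)
    (h4 : ∀ v i j k, i ≤ j → j ≤ k → v ∈ B i → v ∈ B k → v ∈ B j) :
    ∃ N : ℕ, (N : ℝ) ≤ 10 ^ 17 * θ * (Real.logb 2 (θ + 1)) ^ 4 ∧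
      ∃ c : V → Fin N,
        ∀ (k : ℕ) (p : ℕ → V), 1 ≤ k →
          (∀ i j, i < 2 * k → j < 2 * k → p i = p j → i = j) →
          (∀ i, i + 1 < 2 * k → G.Adj (p i) (p (i + 1))) →
          ∃ i, i < k ∧ c (p i) ≠ c (p (i + k)) := by
  obtain ⟨lo, hi, hle, hmem, hadj⟩ := FBD.intervals_of_decomp G B h2 h3 h4
  obtain ⟨m, hm1, hm3⟩ := numerics θ hθ
  have hw : ∀ p, ((Finset.univ : Finset V).filter (fun v => lo v ≤ p ∧ p ≤ hi v)).card ≤ θ + 1 := by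
    intro p
    refine le_trans (Finset.card_le_card ?_) (h1 p)
    intro v hv
    rw [Finset.mem_filter] at hv
    exact hmem v p hv.2.1 hv.2.2
  obtain ⟨c, hc⟩ := core lo hi hle (θ + 1) m hm1 hw
  refine ⟨_, hm3, c, ?_⟩
  intro k p hk hinj hp
  exact hc k p hk hinj (fun i hi => hadj _ _ (hp i hi))

end Pool.Agent.FBD4
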