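import Pool.Agent.Lib.MP_fbd18f_co.L4.Bas

/-! ROW fbd4-Plc: placement of the cells of `C` in cells of `D`, load 2. -/

set_option autoImplicit false

namespace Pool.Agent.FBD4

/-- the delayed wall `p` covers the gap `[a, b]` of `C j` -/
def Plc_Cov (C D : ℕ → Set ℕ) (l : ℕ → ℕ) (j a b p : ℕ) : Prop :=
  p ∈ C j ∧ p ∉ D j ∧ min (l p) p ≤ a ∧ b ≤ max (l p) p

theorem Plc_key {m M : ℕ} {C D : ℕ → Set ℕ} (WC : Walls M C) (WD : Walls M D) {l : ℕ → ℕ}
    (hl : ∀ j, j < 2 ^ m → ∀ p ∈ C j, p ∉ D j → Dly m C D p (l p)) {j i0 a b a' b' : ℕ}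
    (hj : j < 2 ^ m) (hi : j ≤ i0) (h : Gap (C j) a b) (h' : Gap (C j) a' b') (haa : a < a')
    (hz : ∀ z ∈ C j, b ≤ z → z ≤ a' → z ∉ D i0) :
    ∃ z, (Plc_Cov C D l j a b z ∨ Plc_Cov C D l j a' b' z) ∧ i0 < tm D z := by
  classical
  have hba : b ≤ a' := gap_le h h' haa
  have hex : ∃ t, ∃ z ∈ C j, b ≤ z ∧ z ≤ a' ∧ tm D z = t := ⟨_, b, h.2.1, le_refl _, hba, rfl⟩
  obtain ⟨z, hzC, hz1, hz2, hz3⟩ := Nat.find_spec hex
  have hmin : ∀ y ∈ C j, b ≤ y → y ≤ a' → tm D z ≤ tm D y := by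
    intro y hy hy1 hy2
    rw [hz3]
    exact Nat.find_min' hex ⟨y, hy, hy1, hy2, rfl⟩
  have hzn : z ∉ D i0 := hz z hzC hz1 hz2
  have hzj : z ∉ D j := fun hc => hzn (WD.mono j i0 hi hc)
  have hd := hl j hj z hzC hzj
  have htz : i0 < tm D z := by
    by_contra hc
    exact hzn (WD.mono _ _ (not_lt.mp hc) hd.pD)
  have hlC : l z ∈ C j := WC.mono _ _ (WC.mem_tm hzC).2 hd.lC
  have hlt : tm D (l z) ≤ tm D z - 1 := (WD.mem_tm hd.lD).2
  have hlz : ¬ (b ≤ l z ∧ l z ≤ a') := by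
    rintro ⟨h1, h2⟩
    have := hmin _ hlC h1 h2
    omega
  refine ⟨z, ?_, htz⟩
  rcases lt_or_ge (l z) b with h1 | h1
  · left
    have h2 : l z ≤ a := by
      by_contra hc
      exact h.2.2.2 _ hlC ⟨by omega, h1⟩
    exact ⟨hzC, hzj, le_trans (min_le_left _ _) h2, le_trans hz1 (le_max_right _ _)⟩
  · right
    have h2 : b' ≤ l z := by
      by_contra hc
      exact h'.2.2.2 _ hlC ⟨by omega, by omega⟩
    exact ⟨hzC, hzj, le_trans (min_le_right _ _) hz2, le_trans h2 (le_max_left _ _)⟩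

theorem Plc_tm {m M : ℕ} {C D : ℕ → Set ℕ} (WC : Walls M C) (WD : Walls M D) {l : ℕ → ℕ}
    (hl : ∀ j, j < 2 ^ m → ∀ p ∈ C j, p ∉ D j → Dly m C D p (l p)) {j a b p : ℕ}
    (hj : j < 2 ^ m) (h : Plc_Cov C D l j a b p) : tm C p ≤ j ∧ j < tm D p := by
  refine ⟨(WC.mem_tm h.1).2, ?_⟩
  by_contra hc
  exact h.2.1 (WD.mono _ _ (not_lt.mp hc) (hl j hj p h.1 h.2.1).pD)

theorem Plc_max {m M : ℕ} {C D : ℕ → Set ℕ} (WC : Walls M C) {l : ℕ → ℕ}
    (hl : ∀ j, j < 2 ^ m → ∀ p ∈ C j, p ∉ D j → Dly m C D p (l p)) {j a b : ℕ}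
    (hj : j < 2 ^ m) (h : ∃ p, Plc_Cov C D l j a b p) :
    ∃ p, Plc_Cov C D l j a b p ∧ ∀ p', Plc_Cov C D l j a b p' → tm D p' ≤ tm D p := by
  obtain ⟨p, hp⟩ := h
  have hne : ({t | ∃ p, Plc_Cov C D l j a b p ∧ tm D p = t} : Set ℕ).Nonempty := ⟨_, p, hp, rfl⟩
  have hbd : BddAbove {t | ∃ p, Plc_Cov C D l j a b p ∧ tm D p = t} := by
    refine ⟨2 ^ m, ?_⟩
    rintro t ⟨q, hq, rfl⟩
    have h1 := (hl j hj q hq.1 hq.2.1).H
    have h2 := (WC.mem_tm hq.1).2
    omega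
  obtain ⟨q, hq, hq1⟩ := Nat.sSup_mem hne hbd
  refine ⟨q, hq, fun p' hp' => ?_⟩
  rw [hq1]
  exact le_csSup hbd ⟨p', hp', rfl⟩

theorem Plc_gap {m M : ℕ} {C D : ℕ → Set ℕ} (WC : Walls M C) (WD : Walls M D) {l : ℕ → ℕ}
    (hl : ∀ j, j < 2 ^ m → ∀ p ∈ C j, p ∉ D j → Dly m C D p (l p)) {j a b p : ℕ}
    (hj : j < 2 ^ m) (h : Plc_Cov C D l j a b p) :
    Gap (D (tm D p + j - tm C p)) (min (l p) p) (max (l p) p) := by
  have hd := hl j hj p h.1 h.2.1
  obtain ⟨h1, h2⟩ := Plc_tm WC WD hl hj h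
  have hp : p ∈ D (tm D p + j - tm C p) := WD.mono _ _ (by omega) hd.pD
  have hlp : l p ∈ D (tm D p + j - tm C p) := WD.mono _ _ (by omega) hd.lD
  have hno := hd.no (tm D p + j - tm C p) (by omega)
  have hne := hd.ne
  refine ⟨?_, ?_, by omega, hno⟩
  · rcases le_total (l p) p with h3 | h3
    · rw [min_eq_left h3]; exact hlp
    · rw [min_eq_right h3]; exact hp
  · rcases le_total (l p) p with h3 | h3
    · rw [max_eq_right h3]; exact hp
    · rw [max_eq_left h3]; exact hlp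

/-- no two gaps of `C j` in the same cell of `D j` are both uncovered -/
theorem Plc_inj0 {m M : ℕ} {C D : ℕ → Set ℕ} (WC : Walls M C) (WD : Walls M D) {l : ℕ → ℕ}
    (hl : ∀ j, j < 2 ^ m → ∀ p ∈ C j, p ∉ D j → Dly m C D p (l p)) {j a b a' b' : ℕ}
    (hj : j < 2 ^ m) (h : Gap (C j) a b) (h' : Gap (C j) a' b')
    (hn : ¬ ∃ p, Plc_Cov C D l j a b p) (hn' : ¬ ∃ p, Plc_Cov C D l j a' b' p)
    (he : pv (D j) (a + 1) = pv (D j) (a' + 1)) : ¬ a < a' := by
  intro haa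
  obtain ⟨z, hz, -⟩ := Plc_key WC WD hl hj (le_refl j) h h' haa (by
    intro z hz1 hz2 hz3 hz4
    have h1 := (pv_spec (WD.zero' j) (x := a' + 1) (by omega)).2.2 z hz4 (by omega)
    have h2 := (pv_spec (WD.zero' j) (x := a + 1) (by omega)).2.1
    have h3 := h.2.2.1
    omega)
  rcases hz with hz | hz
  · exact hn ⟨z, hz⟩
  · exact hn' ⟨z, hz⟩

/-- no two gaps of `C j` have the same maximal cover -/
theorem Plc_inj1 {m M : ℕ} {C D : ℕ → Set ℕ} (WC : Walls M C) (WD : Walls M D) {l : ℕ → ℕ}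
    (hl : ∀ j, j < 2 ^ m → ∀ p ∈ C j, p ∉ D j → Dly m C D p (l p)) {j a b a' b' p : ℕ}
    (hj : j < 2 ^ m) (h : Gap (C j) a b) (h' : Gap (C j) a' b')
    (hc : Plc_Cov C D l j a b p) (hc' : Plc_Cov C D l j a' b' p)
    (hm : ∀ q, Plc_Cov C D l j a b q → tm D q ≤ tm D p)
    (hm' : ∀ q, Plc_Cov C D l j a' b' q → tm D q ≤ tm D p) : ¬ a < a' := by
  intro haa
  have hg := Plc_gap WC WD hl hj hc
  obtain ⟨h1, h2⟩ := Plc_tm WC WD hl hj hc
  obtain ⟨z, hz, hz1⟩ := Plc_key WC WD hl hj (i0 := tm D p + j - tm C p) (by omega) h h' haa (by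
    intro z hz1 hz2 hz3 hz4
    refine hg.2.2.2 z hz4 ⟨?_, ?_⟩
    · exact lt_of_le_of_lt hc.2.2.1 (lt_of_lt_of_le h.2.2.1 hz2)
    · exact lt_of_le_of_lt hz3 (lt_of_lt_of_le h'.2.2.1 hc'.2.2.2))
  rcases hz with hz | hz
  · have := hm z hz
    omega
  · have := hm' z hz
    omega

/-- PLACEMENT. The cell `[a, b]` of `C j` gets the level `τ j a ≥ j` such that no wall of `D (τ j a)` lies strictly inside
`[a, b]`, and every cell of `D i` contains at most two cells placed on level `i` (they are distinguished by `κ`).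
PROOF. For every delayed `p` (`p ∈ C j \ D j` for some `j < 2 ^ m`; then `tm C p ≤ j < tm D p`) choose `l p` with `Dly m C D p (l p)`.
Say `p` covers `(j, a, b)` if `p ∈ C j \ D j`, `min (l p) p ≤ a` and `b ≤ max (l p) p`. If nothing covers `(j, a, b)` put `τ = j`,
`κ = 0`. Otherwise let `p` be a cover with maximal `tm D p`, put `τ = tm D p + j - tm C p`, `κ = 1`; `Dly.no` gives the
statement about walls inside and `Dly.H` gives `τ < 2 ^ m`.
KEY STEP: let `a < a'`, `[a, b]`, `[a', b']` gaps of `C j` such that all `z ∈ C j` with `b ≤ z ≤ a'` satisfy `z ∉ D i0` for some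
`i0 ≥ j` (so they are delayed and `tm D z > i0`). Choose such a `z` with minimal `tm D z` (`z = b` exists). `l z ∈ C (tm C z) ⊆ C j`
and `tm D (l z) < tm D z`, so `l z` is not one of these walls, i.e. `l z ≤ a` (then `z` covers `[a, b]`) or `l z ≥ b'` (then `z`
covers `[a', b']`).
INJECTIVITY, `κ = 0`: `j = j' = i`, both gaps are in the same cell of `D i`, so all walls between are not in `D i`: some `z`
covers one of them, contradiction. `κ = 1`: covers `p`, `p'`; the cell of `D i` containing the gap is the interval between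
`l p` and `p` (`l p, p ∈ D i`, none between), the same for `p'`; `tm D (l p) < tm D p`, so `p = p'`, hence `j = j'`; if
`a < a'` use the key step with `i0 = i ≥ tm D p`: the new cover `z` has `tm D z > i ≥ tm D p`, contradiction to maximality. -/
theorem place {m M : ℕ} {C D : ℕ → Set ℕ} (WC : Walls M C) (WD : Walls M D) (hDC : ∀ j, D j ⊆ C j)
    (hd : ∀ j, j < 2 ^ m → ∀ p ∈ C j, p ∉ D j → ∃ l, Dly m C D p l) :
    ∃ (τ : ℕ → ℕ → ℕ) (κ : ℕ → ℕ → Fin 2), ∀ j, j < 2 ^ m → ∀ a b, Gap (C j) a b →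
      (j ≤ τ j a ∧ τ j a < 2 ^ m ∧ ∀ z ∈ D (τ j a), ¬ (a < z ∧ z < b)) ∧
      ∀ j', j' < 2 ^ m → ∀ a' b', Gap (C j') a' b' → τ j a = τ j' a' →
        pv (D (τ j a)) (a + 1) = pv (D (τ j a)) (a' + 1) → κ j a = κ j' a' → j = j' ∧ a = a' := by
  classical
  have hex : ∀ p, ∃ l, (∃ l', Dly m C D p l') → Dly m C D p l := fun p => by
    by_cases h : ∃ l', Dly m C D p l'
    · exact ⟨h.choose, fun _ => h.choose_spec⟩
    · exact ⟨0, fun h' => absurd h' h⟩
  choose l hl0 using hex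
  have hl : ∀ j, j < 2 ^ m → ∀ p ∈ C j, p ∉ D j → Dly m C D p (l p) :=
    fun j hj p h1 h2 => hl0 p (hd j hj p h1 h2)
  have hex2 : ∀ j a, ∃ p, j < 2 ^ m → (∃ q, Plc_Cov C D l j a (nx (C j) a) q) →
      Plc_Cov C D l j a (nx (C j) a) p ∧
      ∀ p', Plc_Cov C D l j a (nx (C j) a) p' → tm D p' ≤ tm D p := fun j a => by
    by_cases h : j < 2 ^ m ∧ ∃ q, Plc_Cov C D l j a (nx (C j) a) q
    · obtain ⟨p, hp⟩ := Plc_max WC hl h.1 h.2
      exact ⟨p, fun _ _ => hp⟩
    · exact ⟨0, fun h1 h2 => absurd ⟨h1, h2⟩ h⟩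
  choose c hc using hex2
  refine ⟨fun j a => if ∃ q, Plc_Cov C D l j a (nx (C j) a) q then tm D (c j a) + j - tm C (c j a)
    else j, fun j a => if ∃ q, Plc_Cov C D l j a (nx (C j) a) q then 1 else 0, ?_⟩
  intro j hj a b hab
  have hb : nx (C j) a = b := nx_of_gap hab
  refine ⟨?_, ?_⟩
  · by_cases h : ∃ q, Plc_Cov C D l j a (nx (C j) a) q
    · obtain ⟨hc1, hc2⟩ := hc j a hj h
      obtain ⟨h1, h2⟩ := Plc_tm WC WD hl hj hc1
      have hg := Plc_gap WC WD hl hj hc1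
      have hH := (hl j hj _ hc1.1 hc1.2.1).H
      simp only [h, if_true]
      refine ⟨by omega, by omega, ?_⟩
      rintro z hz ⟨hz1, hz2⟩
      refine hg.2.2.2 z hz ⟨lt_of_le_of_lt hc1.2.2.1 hz1, ?_⟩
      have := hc1.2.2.2
      rw [hb] at this
      exact lt_of_lt_of_le hz2 this
    · simp only [h, if_false]
      exact ⟨le_refl _, hj, fun z hz => hab.2.2.2 z (hDC j hz)⟩
  · intro j' hj' a' b' hab' ht hp hk
    have hb' : nx (C j') a' = b' := nx_of_gap hab'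
    by_cases h : ∃ q, Plc_Cov C D l j a (nx (C j) a) q
    · by_cases h' : ∃ q, Plc_Cov C D l j' a' (nx (C j') a') q
      · simp only [h, h', if_true] at ht hp
        obtain ⟨hc1, hc2⟩ := hc j a hj h
        obtain ⟨hc1', hc2'⟩ := hc j' a' hj' h'
        obtain ⟨h1, h2⟩ := Plc_tm WC WD hl hj hc1
        obtain ⟨h1', h2'⟩ := Plc_tm WC WD hl hj' hc1'
        have hg := Plc_gap WC WD hl hj hc1
        have hg' := Plc_gap WC WD hl hj' hc1'
        have hdp := hl j hj _ hc1.1 hc1.2.1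
        have hdp' := hl j' hj' _ hc1'.1 hc1'.2.1
        rw [hb] at hc1 hc2
        rw [hb'] at hc1' hc2'
        rw [← ht] at hg'
        have ha := hab.2.2.1
        have ha' := hab'.2.2.1
        have e1 := pv_of_gap hg (x := a + 1) (by have := hc1.2.2.1; omega)
          (by have := hc1.2.2.2; omega)
        have e2 := pv_of_gap hg' (x := a' + 1) (by have := hc1'.2.2.1; omega)
          (by have := hc1'.2.2.2; omega)
        have e3 : min (l (c j a)) (c j a) = min (l (c j' a')) (c j' a') := by rw [← e1, hp, e2]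
        have e4 : max (l (c j a)) (c j a) = max (l (c j' a')) (c j' a') := by
          rw [e3] at hg
          exact gap_eq hg hg'
        have e5 : c j a = c j' a' := by
          by_contra hne
          have e6 : l (c j a) = c j' a' ∧ l (c j' a') = c j a := by omega
          have h3 := (WD.mem_tm hdp.lD).2
          have h4 := (WD.mem_tm hdp'.lD).2
          rw [e6.1] at h3
          rw [e6.2] at h4
          omega
        have ej : j = j' := by
          rw [← e5] at ht h1'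
          omega
        subst ej
        rw [← e5] at hc1' hc2'
        refine ⟨rfl, ?_⟩
        have f1 := Plc_inj1 WC WD hl hj hab hab' hc1 hc1' hc2 hc2'
        have f2 := Plc_inj1 WC WD hl hj hab' hab hc1' hc1 hc2' hc2
        omega
      · simp [h, h'] at hk
    · by_cases h' : ∃ q, Plc_Cov C D l j' a' (nx (C j') a') q
      · simp [h, h'] at hk
      · simp only [h, h', if_false] at ht hp
        subst ht
        rw [hb] at h
        rw [hb'] at h'
        refine ⟨rfl, ?_⟩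
        have f1 := Plc_inj0 WC WD hl hj hab hab' h h' hp
        have f2 := Plc_inj0 WC WD hl hj hab' hab h' h hp.symm
        omega

end Pool.Agent.FBD4
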