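import Pool.Agent.Lib.MP_fbd18f_co.L4.Bas

/-! ROW fbd4-Row: indices of the cells born at time `t`, and geometry of states. -/

set_option autoImplicit false

namespace Pool.Agent.FBD4

variable {M : ℕ} {D : ℕ → Set ℕ}

theorem Row_mem {t a b : ℕ} (h : Gap (D t) a b) (hb : bth D a b = t) : a ∈ Rs D t :=
  ⟨h.1, by rw [nx_of_gap h]; exact hb⟩

theorem Row_count (p : ℕ → Prop) [DecidablePred p] (a n : ℕ) (h : n < Nat.count p a) :
    ∃ x, x < a ∧ p x ∧ Nat.count p x = n := by
  induction a with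
  | zero => simp at h
  | succ a ih =>
    rw [Nat.count_succ] at h
    rcases Nat.lt_or_ge n (Nat.count p a) with h1 | h1
    · obtain ⟨x, hx, hx1, hx2⟩ := ih h1
      exact ⟨x, by omega, hx1, hx2⟩
    · by_cases hp : p a
      · rw [if_pos hp] at h
        exact ⟨a, by omega, hp, by omega⟩
      · rw [if_neg hp] at h
        omega

/-- the cells born at time `t` are numbered from left to right (`Nat.count_strict_mono`, `nx_of_gap`) -/
theorem Walls.idx_lt {t a b c d : ℕ} (h : Gap (D t) a b) (hb : bth D a b = t)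
    (h' : Gap (D t) c d) (hb' : bth D c d = t) (hac : a < c) : idx D a b < idx D c d := by
  classical
  unfold idx
  rw [hb, hb']
  exact Nat.count_strict_mono (p := fun x => x ∈ Rs D t) (Row_mem h hb) hac

theorem Walls.lt_of_idx {t a b c d : ℕ} (h : Gap (D t) a b) (hb : bth D a b = t)
    (h' : Gap (D t) c d) (hb' : bth D c d = t) (hi : idx D a b < idx D c d) : a < c := by
  rcases lt_trichotomy a c with h1 | h1 | h1
  · exact h1
  · subst h1
    have h2 := gap_eq h h'
    subst h2
    exact absurd hi (lt_irrefl _)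
  · have h2 := Walls.idx_lt h' hb' h hb h1
    omega

theorem Walls.idx_inj {t a b c d : ℕ} (h : Gap (D t) a b) (hb : bth D a b = t)
    (h' : Gap (D t) c d) (hb' : bth D c d = t) (hi : idx D a b = idx D c d) : a = c ∧ b = d := by
  rcases lt_trichotomy a c with h1 | h1 | h1
  · have h2 := Walls.idx_lt h hb h' hb' h1
    omega
  · subst h1
    exact ⟨rfl, gap_eq h h'⟩
  · have h2 := Walls.idx_lt h' hb' h hb h1
    omega

/-- every smaller index occurs (`Nat.nth_count`, `Nat.count_nth`, with `Nat.nth (fun x => x ∈ Rs D t) n`) -/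
theorem Walls.idx_exists (W : Walls M D) {t a b n : ℕ} (h : Gap (D t) a b) (hb : bth D a b = t)
    (hn : n ≤ idx D a b) : ∃ c d, Gap (D t) c d ∧ bth D c d = t ∧ idx D c d = n := by
  classical
  rcases Nat.lt_or_ge n (idx D a b) with h1 | h1
  · have h2 : n < Nat.count (fun x => x ∈ Rs D t) a := by
      have h3 := h1
      unfold idx at h3
      rw [hb] at h3
      convert h3
    obtain ⟨x, _, hx1, hx2⟩ := Row_count _ _ _ h2
    obtain ⟨n1, n2, n3⟩ := nx_spec (W.pad' t) x
    refine ⟨x, nx (D t) x, ⟨hx1.1, n1, n2, fun z hz hzz => ?_⟩, hx1.2, ?_⟩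
    · have := n3 z hz hzz.1
      omega
    · unfold idx
      rw [hx1.2]
      convert hx2
  · exact ⟨a, b, h, hb, le_antisymm h1 hn⟩

/-- A state of level `≥ t` whose left end is at most `b`, `[a, b]` born at `t`, lies strictly left of every cell born at `t`
with index at least two larger: let `[p, q]` be the cell with index `idx a b + 1`; `b ≤ p < q ≤ c` (`gap_le`), `p, q ∈ D s.lv`, so
`Ok.one` gives `s.hi < q ≤ c`. -/
theorem Walls.geo_left (W : Walls M D) {H t a b c d : ℕ} {s : St} (hs : Ok M H D s) (ht : t ≤ s.lv)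
    (h : Gap (D t) a b) (hb : bth D a b = t) (h' : Gap (D t) c d) (hb' : bth D c d = t)
    (hi : idx D a b + 2 ≤ idx D c d) (hlo : s.lo ≤ b) : s.hi < c := by
  obtain ⟨p, q, hg, hgb, hgi⟩ := W.idx_exists (n := idx D a b + 1) h' hb' (by omega)
  have h1 : a < p := Walls.lt_of_idx h hb hg hgb (by omega)
  have h2 : p < c := Walls.lt_of_idx hg hgb h' hb' (by omega)
  have h3 : b ≤ p := gap_le h hg h1
  have h4 : q ≤ c := gap_le hg h' h2
  have h5 := hs.one p (W.mono _ _ ht hg.1) q (W.mono _ _ ht hg.2.1) (by omega) hg.2.2.1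
  omega

/-- the mirror image: let `[p, q]` have index `idx a b + 1`; `b ≤ p < q ≤ c ≤ s.hi`, so not `s.lo ≤ p`. -/
theorem Walls.geo_right (W : Walls M D) {H t a b c d : ℕ} {s : St} (hs : Ok M H D s) (ht : t ≤ s.lv)
    (h : Gap (D t) a b) (hb : bth D a b = t) (h' : Gap (D t) c d) (hb' : bth D c d = t)
    (hi : idx D a b + 2 ≤ idx D c d) (hhi : c ≤ s.hi) : b < s.lo := by
  obtain ⟨p, q, hg, hgb, hgi⟩ := W.idx_exists (n := idx D a b + 1) h' hb' (by omega)
  have h1 : a < p := Walls.lt_of_idx h hb hg hgb (by omega)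
  have h2 : p < c := Walls.lt_of_idx hg hgb h' hb' (by omega)
  have h3 : b ≤ p := gap_le h hg h1
  have h4 : q ≤ c := gap_le hg h' h2
  by_contra hcon
  have h5 := hs.one p (W.mono _ _ ht hg.1) q (W.mono _ _ ht hg.2.1) (by omega) hg.2.2.1
  omega

end Pool.Agent.FBD4
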