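import Pool.Agent.Lib.MP_fbd18f_co.L4.Bas

/-! ROW fbd4-Spa: sparse grids. -/

set_option autoImplicit false

namespace Pool.Agent.FBD4

/-- One step: extend a sparse set (between two of its elements below `M` there is a point of `B`) to a maximal one; then
no gap contains three points of `B`. PROOF: among the finite sets `X` with `X0 ⊆ X ⊆ B ∩ [0, M)` which are sparse take one with
the largest number of elements. If `[a, c]` is a gap of `X ∪ [M, ∞)` and `a < z1 < z2 < z3 < c`, `zi ∈ B`, then `a < M`, `z2 < M` and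
`X ∪ {z2}` is sparse (`z1` separates `z2` from the smaller elements, `z3` from the larger elements below `M`), contradiction. -/
theorem sparse_step {M : ℕ} (B : Set ℕ) (X0 : Finset ℕ) (h0 : ∀ x ∈ X0, x ∈ B ∧ x < M)
    (hs : ∀ p ∈ X0, ∀ q ∈ X0, p < q → ∃ b ∈ B, p < b ∧ b < q) :
    ∃ X : Finset ℕ, X0 ⊆ X ∧ (∀ x ∈ X, x ∈ B ∧ x < M) ∧
      (∀ p ∈ X, ∀ q ∈ X, p < q → ∃ b ∈ B, p < b ∧ b < q) ∧
      ∀ a c, Gap ({x | x ∈ X ∨ M ≤ x}) a c → ∀ z1 ∈ B, ∀ z2 ∈ B, ∀ z3 ∈ B,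
        a < z1 → z1 < z2 → z2 < z3 → ¬ z3 < c := by
  classical
  set S : Finset (Finset ℕ) := (Finset.range M).powerset.filter (fun X => X0 ⊆ X ∧
    (∀ x ∈ X, x ∈ B ∧ x < M) ∧ ∀ p ∈ X, ∀ q ∈ X, p < q → ∃ b ∈ B, p < b ∧ b < q) with hS
  have hmem : ∀ X : Finset ℕ, X0 ⊆ X → (∀ x ∈ X, x ∈ B ∧ x < M) →
      (∀ p ∈ X, ∀ q ∈ X, p < q → ∃ b ∈ B, p < b ∧ b < q) → X ∈ S := by
    intro X h1 h2 h3
    rw [hS, Finset.mem_filter, Finset.mem_powerset]
    exact ⟨fun x hx => Finset.mem_range.2 (h2 x hx).2, h1, h2, h3⟩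
  obtain ⟨X, hXS, hmax⟩ := Finset.exists_max_image S Finset.card
    ⟨X0, hmem X0 (Finset.Subset.refl _) h0 hs⟩
  have hX := (Finset.mem_filter.1 (hS ▸ hXS)).2
  obtain ⟨hX1, hX2, hX3⟩ := hX
  refine ⟨X, hX1, hX2, hX3, ?_⟩
  intro a c hgap z1 hz1 z2 hz2 z3 hz3 h1 h2 h3 h4
  obtain ⟨ha, hc, hac, hno⟩ := hgap
  have hz3M : z3 < M := by
    by_contra hcon
    exact hno z3 (Or.inr (not_lt.1 hcon)) ⟨by omega, h4⟩
  have hz2X : z2 ∉ X := fun h => hno z2 (Or.inl h) ⟨by omega, by omega⟩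
  have hin : insert z2 X ∈ S := by
    refine hmem _ (hX1.trans (Finset.subset_insert _ _)) ?_ ?_
    · intro x hx
      rcases Finset.mem_insert.1 hx with rfl | hx
      · exact ⟨hz2, by omega⟩
      · exact hX2 x hx
    · intro p hp q hq hpq
      rcases Finset.mem_insert.1 hp with hp1 | hp1
      · rcases Finset.mem_insert.1 hq with hq1 | hq1
        · omega
        · have hq' : ¬ (a < q ∧ q < c) := hno q (Or.inl hq1)
          exact ⟨z3, hz3, by omega, by omega⟩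
      · rcases Finset.mem_insert.1 hq with hq1 | hq1
        · have hp' : ¬ (a < p ∧ p < c) := hno p (Or.inl hp1)
          exact ⟨z1, hz1, by omega, by omega⟩
        · exact hX3 p hp1 q hq1 hpq
  have := hmax _ hin
  rw [Finset.card_insert_of_notMem hz2X] at this
  omega

/-- the invariant of the construction -/
private def Spa_Inv (M : ℕ) (B : ℕ → Set ℕ) (j : ℕ) (X : Finset ℕ) : Prop :=
  (∀ x ∈ X, x ∈ B j ∧ x < M) ∧
    (∀ p ∈ X, ∀ q ∈ X, p < q → ∃ b ∈ B j, p < b ∧ b < q) ∧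
    ∀ a c, Gap ({x | x ∈ X ∨ M ≤ x}) a c → ∀ z1 ∈ B j, ∀ z2 ∈ B j, ∀ z3 ∈ B j,
      a < z1 → z1 < z2 → z2 < z3 → ¬ z3 < c

/-- SPARSE GRIDS (recursion over `j` with `sparse_step`, starting with `{0}`; put `C j = X j ∪ [M, ∞)`). -/
theorem sparse {M : ℕ} {B : ℕ → Set ℕ} (W : Walls M B) :
    ∃ C : ℕ → Set ℕ, Walls M C ∧ (∀ j, C j ⊆ B j) ∧
      (∀ j, ∀ p ∈ C j, ∀ q ∈ C j, p < q → q < M → ∃ b ∈ B j, p < b ∧ b < q) ∧
      ∀ j a c, Gap (C j) a c → ∀ z1 ∈ B j, ∀ z2 ∈ B j, ∀ z3 ∈ B j,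
        a < z1 → z1 < z2 → z2 < z3 → ¬ z3 < c := by
  classical
  obtain ⟨Y0, hY0, hI0⟩ : ∃ X : Finset ℕ, {0} ⊆ X ∧ Spa_Inv M B 0 X := by
    obtain ⟨X, h1, h2, h3, h4⟩ := sparse_step (M := M) (B 0) {0}
      (by
        intro x hx
        rw [Finset.mem_singleton] at hx
        subst hx
        exact ⟨W.zero, W.M0⟩)
      (by
        intro p hp q hq hpq
        rw [Finset.mem_singleton] at hp hq
        omega)
    exact ⟨X, h1, h2, h3, h4⟩
  have step : ∀ j, ∀ X : {X : Finset ℕ // Spa_Inv M B j X},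
      ∃ X' : {X : Finset ℕ // Spa_Inv M B (j + 1) X}, X.1 ⊆ X'.1 := by
    rintro j ⟨X, hX1, hX2, -⟩
    have hmono : B j ⊆ B (j + 1) := W.mono j (j + 1) (by omega)
    obtain ⟨X', h1, h2, h3, h4⟩ := sparse_step (M := M) (B (j + 1)) X
      (fun x hx => ⟨hmono (hX1 x hx).1, (hX1 x hx).2⟩)
      (fun p hp q hq hpq => by
        obtain ⟨b, hb, hb2⟩ := hX2 p hp q hq hpq
        exact ⟨b, hmono hb, hb2⟩)
    exact ⟨⟨X', h2, h3, h4⟩, h1⟩
  choose f hf using step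
  let F : ∀ j, {X : Finset ℕ // Spa_Inv M B j X} := fun j => Nat.rec ⟨Y0, hI0⟩ f j
  have hF : ∀ j, (F j).1 ⊆ (F (j + 1)).1 := fun j => hf j (F j)
  have hFm : ∀ i j, i ≤ j → (F i).1 ⊆ (F j).1 := by
    intro i j hij
    induction j, hij using Nat.le_induction with
    | base => exact Finset.Subset.refl _
    | succ j _ ih => exact ih.trans (hF j)
  refine ⟨fun j => {x | x ∈ (F j).1 ∨ M ≤ x}, ⟨?_, ?_, ?_, W.M0⟩, ?_, ?_, ?_⟩
  · intro i j hij x hx
    rcases hx with hx | hx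
    · exact Or.inl (hFm i j hij hx)
    · exact Or.inr hx
  · exact Or.inl (hY0 (Finset.mem_singleton_self 0))
  · exact fun x hx => Or.inr hx
  · intro j x hx
    rcases hx with hx | hx
    · exact ((F j).2.1 x hx).1
    · exact W.pad' j x hx
  · intro j p hp q hq hpq hqM
    have hp' : p ∈ (F j).1 := by
      rcases hp with hp | hp
      · exact hp
      · omega
    have hq' : q ∈ (F j).1 := by
      rcases hq with hq | hq
      · exact hq
      · omega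
    exact (F j).2.2.1 p hp' q hq' hpq
  · intro j a c hgap
    exact (F j).2.2.2 a c hgap

end Pool.Agent.FBD4
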