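import Pool.Agent.Lib.MP_fbd18f_co.L4.Row
import Pool.Agent.Lib.MP_fbd18f_co.L4.Bi

/-! Between two events both walkers move by the same number of cells of the row. -/

set_option autoImplicit false

namespace Pool.Agent.FBD4

variable {M : ℕ} {D : ℕ → Set ℕ}

/-- Between two events `(u, n, n')`, `(v, k, k')`, `u ≤ v`, without an event strictly between,
`k ≤ n + 3` and `n ≤ k + 3`. -/
theorem Walls.trk_aux (W : Walls M D) {H t : ℕ} (hCl : Cl M H D t) (A B : ℕ → St) (s s' : ℕ)
    (hok : ∀ u, s ≤ u → u ≤ s' → Ok M H D (A u) ∧ Ok M H D (B u))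
    (hmt : ∀ u, s ≤ u → u < s' → Mt (A u) (A (u + 1)) ∧ Mt (B u) (B (u + 1)))
    (hco : ∀ u, s ≤ u → u ≤ s' → t ≤ (A u).lv ∧ col D (A u) = col D (B u))
    (u v n n' k k' : ℕ) (hu : s ≤ u) (huv : u ≤ v) (hv : v ≤ s')
    (hno : ∀ w, u < w → w < v → ∀ x y, ¬ Ev D t (A w) (B w) x y)
    (h1 : Ev D t (A u) (B u) n n') (h2 : Ev D t (A v) (B v) k k') : k ≤ n + 3 ∧ n ≤ k + 3 := by
  obtain ⟨a, b, a', b', ga, ba, ta, ia, ga', ba', ta', ia', hsz⟩ := h1
  obtain ⟨c, d, c', d', gc, bc, tc, ic, gc', bc', tc', ic', hsz2⟩ := h2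
  have hokU := (hok u hu (by omega)).1
  have hokV := (hok v (by omega) hv).1
  have hlU := (hco u hu (by omega)).1
  have hlV := (hco v (by omega) hv).1
  have key : ∀ p q, Gap (D t) p q → bth D p q = t →
      ((A u).hi < p ∧ q < (A v).lo ∨ (A v).hi < p ∧ q < (A u).lo) → False := by
    intro p q gp bp hcr
    have hpq := gp.2.2.1
    have hlt : u < v := by
      rcases Nat.lt_or_ge u v with h | h
      · exact h
      · have he : u = v := by omega
        subst he
        have := hokU.hle
        rcases hcr with h | h <;> omega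
    obtain ⟨w, hw1, hw2, htw, p', q', gp', tp', bp', lp'⟩ := hCl A B u v hlt
      (fun x hx1 hx2 => hok x (by omega) (by omega)) (fun x hx1 hx2 => hmt x (by omega) (by omega))
      (fun x hx1 hx2 => hco x (by omega) (by omega)) p q gp hcr
    refine hno w hw1 hw2 (idx D p q) (idx D p' q') ⟨p, q, p', q', gp, bp, htw, rfl, gp', ?_, tp',
      rfl, ?_⟩
    · rw [bp', bp]
    · exact (congrArg Prod.fst lp').symm
  constructor
  · by_contra hcon
    obtain ⟨p, q, gp, bp, ip⟩ := W.idx_exists gc bc (n := n + 2) (by omega)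
    apply key p q gp bp
    left
    exact ⟨W.geo_left hokU hlU ga ba gp bp (by omega) ta.1,
      W.geo_right hokV hlV gp bp gc bc (by omega) tc.2⟩
  · by_contra hcon
    obtain ⟨p, q, gp, bp, ip⟩ := W.idx_exists ga ba (n := k + 2) (by omega)
    apply key p q gp bp
    right
    exact ⟨W.geo_left hokV hlV gc bc gp bp (by omega) tc.1,
      W.geo_right hokU hlU gp bp ga ba (by omega) ta.2⟩

/-- TRACKING: between two events both walkers move by the same number of cells of the row. -/
theorem Walls.track (W : Walls M D) {H t : ℕ} (hCl : Cl M H D t) (A B : ℕ → St) (s s' : ℕ)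
    (hok : ∀ u, s ≤ u → u ≤ s' → Ok M H D (A u) ∧ Ok M H D (B u))
    (hmt : ∀ u, s ≤ u → u < s' → Mt (A u) (A (u + 1)) ∧ Mt (B u) (B (u + 1)))
    (hco : ∀ u, s ≤ u → u ≤ s' → t ≤ (A u).lv ∧ col D (A u) = col D (B u))
    (u v n n' k k' : ℕ) (hu : s ≤ u) (huv : u ≤ v) (hv : v ≤ s')
    (h1 : Ev D t (A u) (B u) n n') (h2 : Ev D t (A v) (B v) k k') :
    (k : ℤ) - n = (k' : ℤ) - n' := by
  have hsymm : ∀ w x y, Ev D t (A w) (B w) x y → Ev D t (B w) (A w) y x := by
    rintro w x y ⟨a, b, a', b', ga, ba, ta, ia, ga', ba', ta', ia', hsz⟩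
    exact ⟨a', b', a, b, ga', ba', ta', ia', ga, ba, ta, ia, hsz.symm⟩
  have hsymm' : ∀ w x y, Ev D t (B w) (A w) x y → Ev D t (A w) (B w) y x := by
    rintro w x y ⟨a, b, a', b', ga, ba, ta, ia, ga', ba', ta', ia', hsz⟩
    exact ⟨a', b', a, b, ga', ba', ta', ia', ga, ba, ta, ia, hsz.symm⟩
  have main : ∀ N, ∀ u v n n' k k' : ℕ, v - u ≤ N → s ≤ u → u ≤ v → v ≤ s' →
      Ev D t (A u) (B u) n n' → Ev D t (A v) (B v) k k' → (k : ℤ) - n = (k' : ℤ) - n' := by
    intro N
    induction N with
    | zero =>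
      intro u v n n' k k' hN hu huv hv h1 h2
      have h3 := W.trk_aux hCl A B s s' hok hmt hco u v n n' k k' hu huv hv
        (fun w hw1 hw2 => by omega) h1 h2
      have h4 := W.trk_aux hCl B A s s' (fun x h h' => (hok x h h').symm)
        (fun x h h' => (hmt x h h').symm)
        (fun x h h' => by
          have h5 := hco x h h'
          have h6 : (A x).lv = (B x).lv := congrArg Prod.fst h5.2
          exact ⟨by omega, h5.2.symm⟩) u v n' n k' k hu huv hv
        (fun w hw1 hw2 => by omega) (hsymm u n n' h1) (hsymm v k k' h2)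
      have h7 : sz n = sz n' := by
        obtain ⟨_, _, _, _, _, _, _, _, _, _, _, _, h⟩ := h1
        exact h
      have h8 : sz k = sz k' := by
        obtain ⟨_, _, _, _, _, _, _, _, _, _, _, _, h⟩ := h2
        exact h
      have h9 := sz_mod h7
      have h10 := sz_mod h8
      omega
    | succ N ih =>
      intro u v n n' k k' hN hu huv hv h1 h2
      by_cases hex : ∃ w x y, u < w ∧ w < v ∧ Ev D t (A w) (B w) x y
      · obtain ⟨w, x, y, hw1, hw2, hw⟩ := hex
        have e1 := ih u w n n' x y (by omega) hu (by omega) (by omega) h1 hw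
        have e2 := ih w v x y k k' (by omega) (by omega) (by omega) hv hw h2
        omega
      · have hno : ∀ w, u < w → w < v → ∀ x y, ¬ Ev D t (A w) (B w) x y :=
          fun w hw1 hw2 x y hw => hex ⟨w, x, y, hw1, hw2, hw⟩
        have h3 := W.trk_aux hCl A B s s' hok hmt hco u v n n' k k' hu huv hv hno h1 h2
        have h4 := W.trk_aux hCl B A s s' (fun x h h' => (hok x h h').symm)
          (fun x h h' => (hmt x h h').symm)
          (fun x h h' => by
            have h5 := hco x h h'
            have h6 : (A x).lv = (B x).lv := congrArg Prod.fst h5.2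
            exact ⟨by omega, h5.2.symm⟩) u v n' n k' k hu huv hv
          (fun w hw1 hw2 x y hw => hno w hw1 hw2 y x (hsymm' w x y hw)) (hsymm u n n' h1)
          (hsymm v k k' h2)
        have h7 : sz n = sz n' := by
          obtain ⟨_, _, _, _, _, _, _, _, _, _, _, _, h⟩ := h1
          exact h
        have h8 : sz k = sz k' := by
          obtain ⟨_, _, _, _, _, _, _, _, _, _, _, _, h⟩ := h2
          exact h
        have h9 := sz_mod h7
        have h10 := sz_mod h8
        omega
  exact main (v - u) u v n n' k k' le_rfl hu huv hv h1 h2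

end Pool.Agent.FBD4
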