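import Pool.Agent.Lib.MP_fbd18f_co.L4.Loc
import Pool.Agent.Lib.MP_fbd18f_co.L4.Dlz
import Pool.Agent.Lib.MP_fbd18f_co.L4.Plc

/-! ROW fbd4-Ver: the vertices as states. -/

set_option autoImplicit false

namespace Pool.Agent.FBD4

/-- For an interval `v` of layer `j` let `aL = pv (C j) (lo v)`, `aR = pv (C j) (hi v + 1)`. Either `aL = aR` (no point of `C j` in
`v`) or `aR` is the only point of `C j` in `v` and `nx (C j) aL = aR` (`h1`: at most one point). -/
theorem ends {M : ℕ} {S : Set ℕ} (h0 : 0 ∈ S) (hM : ∀ x, M ≤ x → x ∈ S) {lo hi : ℕ} (h1 : 1 ≤ lo)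
    (hle : lo ≤ hi) (hone : ∀ p ∈ S, ∀ q ∈ S, lo ≤ p → p < q → hi < q) :
    (pv S (hi + 1) = pv S lo ∧ pv S lo < lo ∧ hi < nx S (pv S lo)) ∨
      (nx S (pv S lo) = pv S (hi + 1) ∧ pv S lo < lo ∧ lo ≤ pv S (hi + 1) ∧ pv S (hi + 1) ≤ hi ∧
        hi < nx S (pv S (hi + 1))) := by
  obtain ⟨hL1, hL2, hL3⟩ := pv_spec h0 h1
  obtain ⟨hR1, hR2, hR3⟩ := pv_spec h0 (x := hi + 1) (by omega)
  obtain ⟨nL1, nL2, nL3⟩ := nx_spec hM (pv S lo)
  obtain ⟨nR1, nR2, nR3⟩ := nx_spec hM (pv S (hi + 1))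
  have hLR : pv S lo ≤ pv S (hi + 1) := hR3 _ hL1 (by omega)
  rcases Nat.lt_or_ge (pv S (hi + 1)) lo with h | h
  · left
    have h2 := hL3 _ hR1 h
    refine ⟨le_antisymm h2 hLR, hL2, ?_⟩
    by_contra hcon
    have := hR3 _ nL1 (by omega)
    omega
  · right
    have h2 : nx S (pv S lo) ≤ pv S (hi + 1) := nL3 _ hR1 (by omega)
    have h3 : lo ≤ nx S (pv S lo) := by
      by_contra hcon
      have := hL3 _ nL1 (by omega)
      omega
    refine ⟨?_, hL2, h, by omega, hone _ hR1 _ nR1 h nR2⟩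
    rcases Nat.lt_or_ge (nx S (pv S lo)) (pv S (hi + 1)) with h4 | h4
    · have := hone _ nL1 _ hR1 h3 h4
      omega
    · omega

theorem Ver_pv {S : Set ℕ} (h0 : 0 ∈ S) {x p : ℕ} (hp : p ∈ S) (hpx : p < x)
    (hmax : ∀ z ∈ S, z < x → z ≤ p) : pv S x = p := by
  obtain ⟨h1, h2, h3⟩ := pv_spec h0 (x := x) (by omega)
  exact le_antisymm (hmax _ h1 h2) (h3 _ hp hpx)

theorem Ver_pv2 {S : Set ℕ} (h0 : 0 ∈ S) {a x : ℕ} (hax : a < x)
    (hno : ∀ z ∈ S, z < x → z ≤ a) : pv S x = pv S (a + 1) := by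
  obtain ⟨h1, h2, h3⟩ := pv_spec h0 (x := a + 1) (by omega)
  exact Ver_pv h0 h1 (by omega) fun z hz hzx => h3 z hz (by have := hno z hz hzx; omega)

theorem Ver_key {M : ℕ} {S D : Set ℕ} (h0 : 0 ∈ S) (hM : ∀ x, M ≤ x → x ∈ S) (hD0 : 0 ∈ D)
    {lo hi : ℕ} (h1 : 1 ≤ lo) (hle : lo ≤ hi)
    (hone : ∀ p ∈ S, ∀ q ∈ S, lo ≤ p → p < q → hi < q)
    (nL : ∀ z ∈ D, ¬ (pv S lo < z ∧ z < nx S (pv S lo)))
    (nR : ∀ z ∈ D, ¬ (pv S (hi + 1) < z ∧ z < nx S (pv S (hi + 1)))) :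
    (∀ p ∈ D, ∀ q ∈ D, lo ≤ p → p < q → hi < q) ∧
      ∀ a, (a = pv S (hi + 1) ∨ a = pv S lo) → Gap S a (nx S a) ∧ lo ≤ nx S a ∧ a ≤ hi ∧
        (pv D (a + 1) = pv D (hi + 1) ∨ pv D (a + 1) = pv D (pv D (hi + 1))) := by
  have gL := (gap_pv h0 hM h1).1
  have gR := (gap_pv h0 hM (x := hi + 1) (by omega)).1
  rcases ends h0 hM h1 hle hone with ⟨e1, e2, e3⟩ | ⟨e1, e2, e3, e4, e5⟩
  · rw [e1] at gR nR ⊢
    refine ⟨fun p hp q hq hp1 hpq => ?_, fun a ha => ?_⟩
    · by_contra hcon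
      exact nL p hp ⟨by omega, by omega⟩
    · have ha' : a = pv S lo := by rcases ha with h | h <;> exact h
      subst ha'
      refine ⟨gL, by omega, by omega, Or.inl ?_⟩
      refine (Ver_pv2 hD0 (by omega) fun z hz hzx => ?_).symm
      by_contra hcon
      exact nL z hz ⟨by omega, by omega⟩
  · refine ⟨fun p hp q hq hp1 hpq => ?_, fun a ha => ?_⟩
    · by_contra hcon
      rcases Nat.lt_or_ge p (pv S (hi + 1)) with h | h
      · exact nL p hp ⟨by omega, by omega⟩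
      · exact nR q hq ⟨by omega, by omega⟩
    · rcases ha with ha | ha
      · subst ha
        refine ⟨gR, by omega, by omega, Or.inl ?_⟩
        refine (Ver_pv2 hD0 (by omega) fun z hz hzx => ?_).symm
        by_contra hcon
        exact nR z hz ⟨by omega, by omega⟩
      · subst ha
        refine ⟨gL, by omega, by omega, ?_⟩
        by_cases hmem : pv S (hi + 1) ∈ D
        · right
          have hN : pv D (hi + 1) = pv S (hi + 1) := by
            refine Ver_pv hD0 hmem (by omega) fun z hz hzx => ?_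
            by_contra hcon
            exact nR z hz ⟨by omega, by omega⟩
          rw [hN]
          refine (Ver_pv2 hD0 (by omega) fun z hz hzx => ?_).symm
          by_contra hcon
          exact nL z hz ⟨by omega, by omega⟩
        · left
          refine (Ver_pv2 hD0 (by omega) fun z hz hzx => ?_).symm
          by_contra hcon
          rcases Nat.lt_trichotomy z (pv S (hi + 1)) with h | h | h
          · exact nL z hz ⟨by omega, by omega⟩
          · exact hmem (h ▸ hz)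
          · exact nR z hz ⟨by omega, by omega⟩

/-- VERTICES. There are aligned walls `D`, levels `ℓ v < 2 ^ m` and indices `f v ∈ Fin 2 × Fin 2 × Fin 8` such that
`[lo v, hi v]` contains at most one wall of `D (ℓ v)` and the vertices with the same level and the same right cell have
different indices. PROOF. `C` from `sparse`, `D` from `align`, `τ, κ` from `place`, `g` from `Lay.loc`. Let `j = lam v`, `aL`, `aR` as in
`ends` (with `Lay.one`), `ℓ v = min (τ j aL) (τ j aR)` and let `a v ∈ {aR, aL}` be the one attaining the minimum (prefer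
`aR`). No wall of `D (ℓ v)` lies strictly inside the gaps `(aL, nx aL)` and `(aR, nx aR)` of `C j`, so the only possible wall
in `[lo v, hi v]` is `aR`. Put `i = ℓ v`, `N = pv (D i) (hi v + 1)`, `c = pv (D i) (a v + 1)`. Then `c = N`, or `c = pv (D i) N`
(this happens only if `a v = aL ≠ aR`, `aR ∈ D i`, and then `N = aR`). `f v = (0 if c = N else 1, κ j (a v), g v (a v))`. If `v`, `v'`
have the same `i`, `N`, `f` then the same `c`, so by `place` `lam v = lam v'` and `a v = a v'`, and then `v = v'` by `Lay.loc`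
(`v` meets the closed gap of `C j` starting at `a v`). -/
theorem vertices {V : Type} [Fintype V] {m M : ℕ} {B : ℕ → Set ℕ} {lo hi lam : V → ℕ}
    (L : Lay M B lo hi lam) (hm : ∀ v, lam v < 2 ^ m) :
    ∃ (D : ℕ → Set ℕ) (lv : V → ℕ) (f : V → Fin 2 × Fin 2 × Fin 8), Walls M D ∧ Aligned m D ∧
      (∀ v, Ok M (2 ^ m) D ⟨lv v, lo v, hi v⟩) ∧
      ∀ v v', lv v = lv v' → pv (D (lv v)) (hi v + 1) = pv (D (lv v)) (hi v' + 1) → f v = f v' →
        v = v' := by
  classical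
  obtain ⟨C, WC, hCB, hs, h3⟩ := sparse L.W
  obtain ⟨D, WD, hDC, hAl, hd⟩ := align (m := m) WC
  obtain ⟨τ, κ, hpl⟩ := place WC WD hDC hd
  obtain ⟨g, hg⟩ := L.loc WC hCB h3
  obtain ⟨a, ha⟩ : ∃ a : V → ℕ, ∀ v, (a v = pv (C (lam v)) (hi v + 1) ∨ a v = pv (C (lam v)) (lo v)) ∧
      τ (lam v) (a v) ≤ τ (lam v) (pv (C (lam v)) (hi v + 1)) ∧
      τ (lam v) (a v) ≤ τ (lam v) (pv (C (lam v)) (lo v)) := by
    refine ⟨fun v => if τ (lam v) (pv (C (lam v)) (hi v + 1)) ≤ τ (lam v) (pv (C (lam v)) (lo v))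
      then pv (C (lam v)) (hi v + 1) else pv (C (lam v)) (lo v), fun v => ?_⟩
    by_cases h : τ (lam v) (pv (C (lam v)) (hi v + 1)) ≤ τ (lam v) (pv (C (lam v)) (lo v))
    · simp only [if_pos h]
      exact ⟨Or.inl trivial, le_rfl, h⟩
    · simp only [if_neg h]
      exact ⟨Or.inr trivial, by omega, le_rfl⟩
  have key : ∀ v, (∀ p ∈ D (τ (lam v) (a v)), ∀ q ∈ D (τ (lam v) (a v)), lo v ≤ p → p < q → hi v < q) ∧
      Gap (C (lam v)) (a v) (nx (C (lam v)) (a v)) ∧ lo v ≤ nx (C (lam v)) (a v) ∧ a v ≤ hi v ∧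
      (pv (D (τ (lam v) (a v))) (a v + 1) = pv (D (τ (lam v) (a v))) (hi v + 1) ∨
        pv (D (τ (lam v) (a v))) (a v + 1) =
          pv (D (τ (lam v) (a v))) (pv (D (τ (lam v) (a v))) (hi v + 1))) := by
    intro v
    have gL := (WC.gap_at (lam v) (L.h1 v)).1
    have gR := (WC.gap_at (lam v) (x := hi v + 1) (by omega)).1
    have k := Ver_key (S := C (lam v)) (D := D (τ (lam v) (a v))) (WC.zero' _) (WC.pad' _)
      (WD.zero' _) (L.h1 v) (L.hle v) (L.one hCB hs v (lam v) le_rfl)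
      (fun z hz => (hpl (lam v) (hm v) _ _ gL).1.2.2 z (WD.mono _ _ (ha v).2.2 hz))
      (fun z hz => (hpl (lam v) (hm v) _ _ gR).1.2.2 z (WD.mono _ _ (ha v).2.1 hz))
    exact ⟨k.1, k.2 _ (ha v).1⟩
  refine ⟨D, fun v => τ (lam v) (a v), fun v =>
    (if pv (D (τ (lam v) (a v))) (a v + 1) = pv (D (τ (lam v) (a v))) (hi v + 1) then 0 else 1,
      κ (lam v) (a v), g v (a v)), WD, hAl, fun v => ?_, fun v v' hlv hN hf => ?_⟩
  · exact ⟨(hpl (lam v) (hm v) _ _ (key v).2.1).1.2.1, L.h1 v, L.hle v, L.hM v, (key v).1⟩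
  · simp only [Prod.mk.injEq] at hf hlv hN
    obtain ⟨hf1, hf2, hf3⟩ := hf
    have hc : pv (D (τ (lam v) (a v))) (a v + 1) = pv (D (τ (lam v) (a v))) (a v' + 1) := by
      have k1 := (key v).2.2.2.2
      have k2 := (key v').2.2.2.2
      rw [← hlv] at k2 hf1
      by_cases h : pv (D (τ (lam v) (a v))) (a v + 1) = pv (D (τ (lam v) (a v))) (hi v + 1)
      · by_cases h' : pv (D (τ (lam v) (a v))) (a v' + 1) = pv (D (τ (lam v) (a v))) (hi v' + 1)
        · rw [h, h', hN]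
        · rw [if_pos h, if_neg h'] at hf1
          exact absurd hf1 (by decide)
      · by_cases h' : pv (D (τ (lam v) (a v))) (a v' + 1) = pv (D (τ (lam v) (a v))) (hi v' + 1)
        · rw [if_neg h, if_pos h'] at hf1
          exact absurd hf1 (by decide)
        · rw [k1.resolve_left h, k2.resolve_left h', hN]
    obtain ⟨e1, e2⟩ := (hpl (lam v) (hm v) _ _ (key v).2.1).2 (lam v') (hm v') _ _ (key v').2.1
      hlv hc hf2
    refine hg v v' (a v) (nx (C (lam v)) (a v)) e1 (key v).2.1 (key v).2.2.1 (key v).2.2.2.1 ?_ ?_ ?_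
    · rw [e1, e2]
      exact (key v').2.2.1
    · rw [e2]
      exact (key v').2.2.2.1
    · rw [hf3, e2]

end Pool.Agent.FBD4
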